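import Mathlib

set_option linter.unusedSectionVars false
set_option linter.unusedVariables false

namespace Pool.Agent.F3
open Finset

/-- the loss function -/
def psi (k a : ℕ) : ℕ := (a % k) * (k - a % k)

lemma psi_of_le {k a : ℕ} (hk : 0 < k) (ha : a ≤ k) : psi k a = a * (k - a) := by
  unfold psi
  rcases Nat.lt_or_eq_of_le ha with h | h
  · rw [Nat.mod_eq_of_lt h]
  · subst h; simp

lemma psi_congr {k a b : ℕ} (h : a % k = b % k) : psi k a = psi k b := by
  unfold psi; rw [h]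

lemma psi_add_cases {k : ℕ} (hk : 0 < k) (a b : ℕ) :
    psi k (a + b) ≤ psi k a + psi k b ∧
      (a % k ≠ 0 → b % k ≠ 0 → psi k (a + b) < psi k a + psi k b) := by
  unfold psi
  rw [Nat.add_mod]
  have hr := Nat.mod_lt a hk
  have ht := Nat.mod_lt b hk
  generalize a % k = r at *
  generalize b % k = t at *
  rcases Nat.lt_or_ge (r + t) k with h | h
  · rw [Nat.mod_eq_of_lt h]
    obtain ⟨c, rfl⟩ : ∃ c, k = r + t + c := ⟨k - (r + t), by omega⟩
    have e1 : r + t + c - (r + t) = c := by omega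
    have e2 : r + t + c - r = t + c := by omega
    have e3 : r + t + c - t = r + c := by omega
    rw [e1, e2, e3]
    refine ⟨by nlinarith, fun h1 h2 => ?_⟩
    have : 0 < r * t := Nat.mul_pos (Nat.pos_of_ne_zero h1) (Nat.pos_of_ne_zero h2)
    nlinarith
  · have hmod : (r + t) % k = r + t - k := by
      rw [Nat.mod_eq_sub_mod h, Nat.mod_eq_of_lt (by omega)]
    rw [hmod]
    obtain ⟨r', rfl⟩ : ∃ r', k = r + r' := ⟨k - r, by omega⟩
    obtain ⟨t', ht'⟩ : ∃ t', r + r' = t + t' := ⟨r + r' - t, by omega⟩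
    obtain ⟨c, hc⟩ : ∃ c, t = r' + c := ⟨t - r', by omega⟩
    subst hc
    have e1 : r + (r' + c) - (r + r') = c := by omega
    have e2 : r + r' - c = r' + t' := by omega
    have e3 : r + r' - r = r' := by omega
    have e4 : r + r' - (r' + c) = t' := by omega
    rw [e1, e2, e3, e4]
    have e5 : r = c + t' := by omega
    subst e5
    refine ⟨by nlinarith, fun h1 h2 => ?_⟩
    have h3 : 0 < r' := by omega
    have h4 : 0 < t' := by omega
    have : 0 < r' * t' := Nat.mul_pos h3 h4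
    nlinarith

lemma psi_add_le {k : ℕ} (hk : 0 < k) (a b : ℕ) : psi k (a + b) ≤ psi k a + psi k b :=
  (psi_add_cases hk a b).1

lemma psi_add_lt {k : ℕ} (hk : 0 < k) {a b : ℕ} (h1 : a % k ≠ 0) (h2 : b % k ≠ 0) :
    psi k (a + b) < psi k a + psi k b :=
  (psi_add_cases hk a b).2 h1 h2

lemma psi_sum_le {k : ℕ} (hk : 0 < k) {ι : Type*} (s : Finset ι) (q : ι → ℕ) :
    psi k (∑ v ∈ s, q v) ≤ ∑ v ∈ s, psi k (q v) := by
  classical
  induction s using Finset.induction_on with
  | empty => simp [psi]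
  | insert a s ha ih =>
    rw [Finset.sum_insert ha, Finset.sum_insert ha]
    exact (psi_add_le hk _ _).trans (Nat.add_le_add_left ih _)

lemma psi_le_mul {k : ℕ} (hk : 0 < k) (e : ℕ) : psi k e ≤ (k - 1) * e := by
  unfold psi
  rcases Nat.eq_zero_or_pos (e % k) with h | h
  · rw [h]; simp
  · have h1 : k - e % k ≤ k - 1 := by omega
    have h2 : e % k ≤ e := Nat.mod_le _ _
    calc (e % k) * (k - e % k) ≤ e * (k - 1) := Nat.mul_le_mul h2 h1
      _ = _ := Nat.mul_comm _ _

lemma psi_eq_zero {k a : ℕ} (hk : 0 < k) (h : psi k a = 0) : a % k = 0 := by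
  unfold psi at h
  have := Nat.mod_lt a hk
  rcases Nat.mul_eq_zero.1 h with h | h
  · exact h
  · omega

/-- The arithmetic uniqueness lemma. -/
theorem arith_unique {k l e : ℕ} {ι : Type*} [DecidableEq ι] (s : Finset ι) (q : ι → ℕ)
    (hl1 : 1 ≤ l) (hlk : l < k) (hq : ∀ v ∈ s, q v ≤ k)
    (hmod : (∑ v ∈ s, q v + e) % k = l)
    (hle : k * e + ∑ v ∈ s, q v * (k - q v) ≤ l * (k - l)) :
    e = 0 ∧ ∃ w ∈ s, q w = l ∧ ∀ v ∈ s, v ≠ w → q v = 0 ∨ q v = k := by
  have hk : 0 < k := by omega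
  have hS : ∑ v ∈ s, psi k (q v) = ∑ v ∈ s, q v * (k - q v) :=
    Finset.sum_congr rfl fun v hv => psi_of_le hk (hq v hv)
  have h1 : psi k (∑ v ∈ s, q v + e) = l * (k - l) := by
    have : psi k (∑ v ∈ s, q v + e) = psi k l :=
      psi_congr (by rw [hmod, Nat.mod_eq_of_lt hlk])
    rw [this, psi_of_le hk hlk.le]
  have h2 := psi_add_le hk (∑ v ∈ s, q v) e
  have h3 := psi_sum_le hk s q
  have h4 := psi_le_mul hk e
  have he : e = 0 := by
    obtain ⟨k', rfl⟩ : ∃ k', k = k' + 1 := ⟨k - 1, by omega⟩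
    have : k' + 1 - 1 = k' := by omega
    rw [this] at h4
    have h5 : (k' + 1) * e = k' * e + e := by ring
    omega
  subst he
  simp only [Nat.mul_zero, Nat.zero_add, Nat.add_zero] at *
  have h5 : ∑ v ∈ s, psi k (q v) = l * (k - l) := by omega
  -- some vertex has nonzero residue
  have hex : ∃ w ∈ s, q w % k ≠ 0 := by
    by_contra hcon
    push Not at hcon
    have : (∑ v ∈ s, q v) % k = 0 := by
      rw [Finset.sum_nat_mod, Finset.sum_congr rfl hcon]
      simp
    omega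
  obtain ⟨w, hw, hwk⟩ := hex
  have e1 : ∑ v ∈ s, q v = q w + ∑ v ∈ s.erase w, q v := (Finset.add_sum_erase s _ hw).symm
  have e2 : ∑ v ∈ s, psi k (q v) = psi k (q w) + ∑ v ∈ s.erase w, psi k (q v) :=
    (Finset.add_sum_erase s _ hw).symm
  have h6 := psi_sum_le hk (s.erase w) q
  have hrest : (∑ v ∈ s.erase w, q v) % k = 0 := by
    by_contra hne
    have := psi_add_lt hk hwk hne
    rw [← e1] at this
    omega
  have hqw : q w % k = l := by
    rw [e1, Nat.add_mod, hrest, Nat.add_zero, Nat.mod_mod] at hmod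
    exact hmod
  have hqwl : q w = l := by
    rcases Nat.lt_or_eq_of_le (hq w hw) with h | h
    · rwa [Nat.mod_eq_of_lt h] at hqw
    · rw [h] at hwk; simp at hwk
  refine ⟨trivial, w, hw, hqwl, ?_⟩
  have h7 : psi k (q w) = l * (k - l) := by rw [hqwl, psi_of_le hk hlk.le]
  have h8 : ∑ v ∈ s.erase w, psi k (q v) = 0 := by omega
  intro v hv hvw
  have h9 : psi k (q v) = 0 := by
    have := Finset.sum_eq_zero_iff.1 h8 v (Finset.mem_erase.2 ⟨hvw, hv⟩)
    exact this
  have h10 := psi_eq_zero hk h9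
  rcases Nat.lt_or_eq_of_le (hq v hv) with h | h
  · left; rwa [Nat.mod_eq_of_lt h] at h10
  · right; exact h

end Pool.Agent.F3
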