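import Pool.Agent.Hhelper34.F3.Match

namespace Pool.Agent.F3
open SimpleGraph Finset

universe u

variable {V : Type u} [Fintype V] [DecidableEq V] (G : SimpleGraph V) [DecidableRel G.Adj]

/-- real adjacency indicator -/
noncomputable def ad (v w : V) : ℝ := if G.Adj v w then 1 else 0

/-- real degree of `v` into `A` -/
noncomputable def dg (A : Finset V) (v : V) : ℝ := ∑ w ∈ A, ad G v w

/-- weighted degree of `v` into `A` -/
noncomputable def nb (x : V → ℝ) (A : Finset V) (v : V) : ℝ := ∑ w ∈ A, ad G v w * x w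

omit [Fintype V] [DecidableEq V] in
lemma ad_comm (v w : V) : ad G v w = ad G w v := by
  unfold ad; simp [G.adj_comm]

omit [Fintype V] [DecidableEq V] in
lemma ad_nonneg (v w : V) : 0 ≤ ad G v w := by
  unfold ad; split_ifs <;> norm_num

omit [Fintype V] [DecidableEq V] in
lemma ad_le_one (v w : V) : ad G v w ≤ 1 := by
  unfold ad; split_ifs <;> norm_num

omit [Fintype V] [DecidableEq V] in
lemma ad_of_adj {v w : V} (h : G.Adj v w) : ad G v w = 1 := by
  unfold ad; simp [h]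

omit [Fintype V] [DecidableEq V] in
lemma ad_of_not {v w : V} (h : ¬ G.Adj v w) : ad G v w = 0 := by
  unfold ad; simp [h]

omit [Fintype V] [DecidableEq V] in
lemma dg_nonneg (A : Finset V) (v : V) : 0 ≤ dg G A v :=
  Finset.sum_nonneg fun _ _ => ad_nonneg G _ _

omit [Fintype V] [DecidableEq V] in
lemma dg_eq_card (A : Finset V) (v : V) : dg G A v = ((A.filter (G.Adj v)).card : ℝ) := by
  unfold dg ad
  rw [Finset.card_filter]
  push_cast
  rfl

omit [Fintype V] [DecidableEq V] in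
lemma dg_le_card (A : Finset V) (v : V) : dg G A v ≤ (A.card : ℝ) := by
  rw [dg_eq_card]
  exact_mod_cast Finset.card_filter_le _ _

omit [Fintype V] [DecidableEq V] in
lemma dg_mono {A B : Finset V} (h : A ⊆ B) (v : V) : dg G A v ≤ dg G B v :=
  Finset.sum_le_sum_of_subset_of_nonneg h fun _ _ _ => ad_nonneg G _ _

omit [Fintype V] [DecidableEq V] in
lemma dg_swap (A B : Finset V) : ∑ v ∈ A, dg G B v = ∑ w ∈ B, dg G A w := by
  unfold dg
  rw [Finset.sum_comm]
  refine Finset.sum_congr rfl fun w _ => Finset.sum_congr rfl fun v _ => ad_comm G _ _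

omit [Fintype V] [DecidableEq V] in
lemma nb_swap (x : V → ℝ) (A B : Finset V) :
    ∑ v ∈ A, nb G x B v = ∑ w ∈ B, dg G A w * x w := by
  unfold nb dg
  rw [Finset.sum_comm]
  refine Finset.sum_congr rfl fun w _ => ?_
  rw [Finset.sum_mul]
  exact Finset.sum_congr rfl fun v _ => by rw [ad_comm]

omit [Fintype V] [DecidableEq V] in
lemma nb_nonneg {x : V → ℝ} (hx0 : ∀ v, 0 ≤ x v) (A : Finset V) (v : V) : 0 ≤ nb G x A v :=
  Finset.sum_nonneg fun _ _ => mul_nonneg (ad_nonneg G _ _) (hx0 _)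

omit [Fintype V] [DecidableEq V] in
lemma nb_le_dg {x : V → ℝ} (hx1 : ∀ v, x v ≤ 1) (A : Finset V) (v : V) :
    nb G x A v ≤ dg G A v := by
  unfold nb dg
  refine Finset.sum_le_sum fun w _ => ?_
  have := ad_nonneg G v w
  have := hx1 w
  nlinarith

omit [Fintype V] [DecidableEq V] in
lemma nb_le_dg_mul {x : V → ℝ} {c : ℝ} {A : Finset V} (hx1 : ∀ v ∈ A, x v ≤ c) (v : V) :
    nb G x A v ≤ dg G A v * c := by
  unfold nb dg
  rw [Finset.sum_mul]
  refine Finset.sum_le_sum fun w hw => ?_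
  have := ad_nonneg G v w
  have := hx1 w hw
  nlinarith

omit [Fintype V] [DecidableEq V] in
lemma nb_le_sum {x : V → ℝ} (hx0 : ∀ v, 0 ≤ x v) (A : Finset V) (v : V) :
    nb G x A v ≤ ∑ w ∈ A, x w := by
  unfold nb
  refine Finset.sum_le_sum fun w _ => ?_
  have := ad_le_one G v w
  have := hx0 w
  nlinarith

/-- The context for the main structural argument. -/
structure Ctx (x : V → ℝ) (lm : ℝ) (u : V) (k : ℕ) : Prop where
  hk : 3 ≤ k
  hx0 : ∀ v, 0 ≤ x v
  hx1 : ∀ v, x v ≤ 1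
  hu : x u = 1
  heig : ∀ v, lm * x v = nb G x univ v
  hfree : (friendship k).Free G
  hbig : 10 ^ 7 * (k : ℝ) ^ 7 ≤ lm
  hE : ∑ v, dg G univ v - (k : ℝ) ^ 2 ≤ 2 * (lm ^ 2 - ((k : ℝ) - 1) * lm)

/-- neighbourhood of `u` -/
def NN (u : V) : Finset V := univ.filter (G.Adj u)

/-- vertices of large degree inside the neighbourhood of `u` -/
def LL (u : V) (k : ℕ) : Finset V :=
  (NN G u).filter (fun v => 2 * k ≤ ((NN G u).filter (G.Adj v)).card + 1)

/-- the other neighbours of `u` -/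
def MM (u : V) (k : ℕ) : Finset V :=
  (NN G u).filter (fun v => ¬ (2 * k ≤ ((NN G u).filter (G.Adj v)).card + 1))

/-- the non-neighbours of `u` other than `u` -/
def WW (u : V) : Finset V := univ.filter (fun v => v ≠ u ∧ ¬ G.Adj u v)

lemma sum_split (u : V) (f : V → ℝ) :
    ∑ v, f v = f u + ∑ v ∈ NN G u, f v + ∑ v ∈ WW G u, f v := by
  have h1 : (univ : Finset V) = {u} ∪ (NN G u ∪ WW G u) := by
    ext v
    simp only [NN, WW, mem_univ, mem_union, mem_singleton, mem_filter, true_and, true_iff]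
    tauto
  rw [h1, Finset.sum_union, Finset.sum_union, Finset.sum_singleton, add_assoc]
  · rw [Finset.disjoint_left]
    intro v hv hv'
    simp only [NN, WW, mem_filter, mem_univ, true_and] at hv hv'
    exact hv'.2 hv
  · rw [Finset.disjoint_left]
    intro v hv hv'
    simp only [NN, WW, mem_filter, mem_univ, true_and, mem_union, mem_singleton] at hv hv'
    subst hv
    rcases hv' with h | h
    · exact G.loopless.irrefl _ h
    · exact h.1 rfl

lemma sum_NN (u : V) (k : ℕ) (f : V → ℝ) :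
    ∑ v ∈ NN G u, f v = ∑ v ∈ LL G u k, f v + ∑ v ∈ MM G u k, f v := by
  unfold LL MM
  rw [Finset.sum_filter_add_sum_filter_not]

lemma dg_univ_split (u v : V) :
    dg G univ v = ad G v u + dg G (NN G u) v + dg G (WW G u) v := by
  unfold dg
  exact sum_split G u _

lemma nb_univ_split (x : V → ℝ) (u v : V) :
    nb G x univ v = ad G v u * x u + nb G x (NN G u) v + nb G x (WW G u) v := by
  unfold nb
  exact sum_split G u _

lemma dg_NN_split (u : V) (k : ℕ) (v : V) :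
    dg G (NN G u) v = dg G (LL G u k) v + dg G (MM G u k) v := by
  unfold dg
  exact sum_NN G u k _

lemma nb_NN_split (x : V → ℝ) (u : V) (k : ℕ) (v : V) :
    nb G x (NN G u) v = nb G x (LL G u k) v + nb G x (MM G u k) v := by
  unfold nb
  exact sum_NN G u k _

lemma mem_NN {u v : V} : v ∈ NN G u ↔ G.Adj u v := by simp [NN]

lemma LL_sub (u : V) (k : ℕ) : LL G u k ⊆ NN G u := Finset.filter_subset _ _

lemma MM_sub (u : V) (k : ℕ) : MM G u k ⊆ NN G u := Finset.filter_subset _ _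

lemma mem_WW {u v : V} : v ∈ WW G u ↔ v ≠ u ∧ ¬ G.Adj u v := by simp [WW]

/-- from freeness: at most `k-1` vertices in `N(v)` have `≥ 2k-1` neighbours in `N(v)` -/
lemma card_le_of_free {k : ℕ} (hk : 1 ≤ k) (hF : (friendship k).Free G) (v : V) (C : Finset V)
    (hC : C ⊆ NN G v) (hd : ∀ c ∈ C, 2 * k ≤ ((NN G v).filter (G.Adj c)).card + 1) :
    C.card ≤ k - 1 := by
  by_contra hcon
  have h1 : k ≤ C.card := by omega
  exact free_no_matching G hF v (greedy G hC h1 hd)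

lemma LL_card {k : ℕ} (hk : 1 ≤ k) (hF : (friendship k).Free G) (u : V) :
    (LL G u k).card ≤ k - 1 :=
  card_le_of_free G hk hF u _ (LL_sub G u k) fun c hc => (Finset.mem_filter.1 hc).2

lemma MM_deg {k : ℕ} (hk : 1 ≤ k) {u v : V} (hv : v ∈ MM G u k) :
    dg G (NN G u) v ≤ 2 * (k : ℝ) - 2 := by
  rw [dg_eq_card]
  have h := (Finset.mem_filter.1 hv).2
  have h2 : ((NN G u).filter (G.Adj v)).card + 2 ≤ 2 * k := by omega
  have h3 : ((((NN G u).filter (G.Adj v)).card + 2 : ℕ) : ℝ) ≤ ((2 * k : ℕ) : ℝ) := by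
    exact_mod_cast h2
  push_cast at h3
  linarith

lemma MM_edges {k : ℕ} (hk : 1 ≤ k) (hF : (friendship k).Free G) (u : V) :
    ∑ v ∈ MM G u k, dg G (MM G u k) v ≤ 8 * (k : ℝ) ^ 2 := by
  obtain ⟨r, rfl⟩ : ∃ r, k = r + 1 := ⟨k - 1, by omega⟩
  have h1 : ¬ HasM G (MM G u (r + 1)) (r + 1) := fun h =>
    free_no_matching G hF u (hasM_mono G (MM_sub G u (r + 1)) h)
  have h2 : ∀ v ∈ MM G u (r + 1), ((MM G u (r + 1)).filter (G.Adj v)).card ≤ 2 * r := by
    intro v hv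
    have h := (Finset.mem_filter.1 hv).2
    have h3 : ((MM G u (r + 1)).filter (G.Adj v)).card ≤ ((NN G u).filter (G.Adj v)).card :=
      Finset.card_le_card (Finset.filter_subset_filter _ (MM_sub G u _))
    omega
  have h3 := edge_bound G h2 h1
  have h4 : ∑ v ∈ MM G u (r + 1), dg G (MM G u (r + 1)) v =
      ((∑ v ∈ MM G u (r + 1), ((MM G u (r + 1)).filter (G.Adj v)).card : ℕ) : ℝ) := by
    push_cast
    exact Finset.sum_congr rfl fun v _ => dg_eq_card G _ _
  rw [h4]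
  have h5 : ((∑ v ∈ MM G u (r + 1), ((MM G u (r + 1)).filter (G.Adj v)).card : ℕ) : ℝ) ≤
      ((4 * (2 * r) * r : ℕ) : ℝ) := by exact_mod_cast h3
  refine h5.trans ?_
  push_cast
  nlinarith [(Nat.cast_nonneg r : (0 : ℝ) ≤ r)]

variable {G}
variable {x : V → ℝ} {lm : ℝ} {u : V} {k : ℕ}

lemma Ctx.k3 (h : Ctx G x lm u k) : (3 : ℝ) ≤ k := by exact_mod_cast h.hk

lemma Ctx.big (h : Ctx G x lm u k) {j : ℕ} (hj : j ≤ 7) : 10 ^ 7 * (k : ℝ) ^ j ≤ lm := by
  have h1 : (k : ℝ) ^ j ≤ (k : ℝ) ^ 7 := pow_le_pow_right₀ (by linarith [h.k3]) hj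
  linarith [h.hbig]

lemma Ctx.lmpos (h : Ctx G x lm u k) : 0 < lm := by
  have := h.big (j := 0) (by norm_num)
  norm_num at this
  linarith

lemma Ctx.lm_eq (h : Ctx G x lm u k) :
    lm = ∑ v ∈ LL G u k, x v + ∑ v ∈ MM G u k, x v := by
  have h1 := h.heig u
  rw [h.hu, mul_one, nb_univ_split G x u u, ad_of_not G (G.loopless.irrefl u)] at h1
  have h2 : nb G x (NN G u) u = ∑ v ∈ NN G u, x v := by
    unfold nb
    refine Finset.sum_congr rfl fun v hv => ?_
    rw [ad_of_adj G ((mem_NN G).1 hv), one_mul]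
  have h3 : nb G x (WW G u) u = 0 := by
    unfold nb
    refine Finset.sum_eq_zero fun v hv => ?_
    rw [ad_of_not G ((mem_WW G).1 hv).2, zero_mul]
  rw [h2, h3] at h1
  rw [h1, sum_NN G u k]
  ring

lemma Ctx.lm_sq (h : Ctx G x lm u k) :
    lm ^ 2 = dg G (NN G u) u + ∑ v ∈ LL G u k, dg G (NN G u) v * x v +
      ∑ v ∈ MM G u k, dg G (NN G u) v * x v + ∑ v ∈ WW G u, dg G (NN G u) v * x v := by
  have h0 := h.lm_eq
  rw [← sum_NN G u k] at h0
  have h1 : lm ^ 2 = ∑ v ∈ NN G u, lm * x v := by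
    rw [← Finset.mul_sum, ← h0, sq]
  have h2 : ∑ v ∈ NN G u, lm * x v = ∑ v ∈ NN G u, nb G x univ v :=
    Finset.sum_congr rfl fun v _ => h.heig v
  rw [h1, h2, nb_swap, sum_split G u, h.hu, sum_NN G u k, mul_one]
  ring

lemma two_m_eq (u : V) (k : ℕ) :
    ∑ v, dg G univ v = 2 * dg G (NN G u) u + 2 * ∑ v ∈ LL G u k, dg G (NN G u) v
      - ∑ v ∈ LL G u k, dg G (LL G u k) v + ∑ v ∈ MM G u k, dg G (MM G u k) v
      + 2 * ∑ v ∈ WW G u, dg G (NN G u) v + ∑ v ∈ WW G u, dg G (WW G u) v := by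
  rw [sum_split G u]
  have e1 : dg G univ u = dg G (NN G u) u := by
    rw [dg_univ_split G u u, ad_of_not G (G.loopless.irrefl u)]
    have : dg G (WW G u) u = 0 := by
      unfold dg
      exact Finset.sum_eq_zero fun v hv => ad_of_not G ((mem_WW G).1 hv).2
    rw [this]; ring
  have e2 : ∑ v ∈ NN G u, dg G univ v =
      dg G (NN G u) u + ∑ v ∈ NN G u, dg G (NN G u) v + ∑ v ∈ NN G u, dg G (WW G u) v := by
    have : ∑ v ∈ NN G u, dg G univ v =
        ∑ v ∈ NN G u, (ad G v u + dg G (NN G u) v + dg G (WW G u) v) :=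
      Finset.sum_congr rfl fun v _ => dg_univ_split G u v
    rw [this, Finset.sum_add_distrib, Finset.sum_add_distrib]
    congr 2
    unfold dg
    exact Finset.sum_congr rfl fun v _ => ad_comm G _ _
  have e3 : ∑ v ∈ WW G u, dg G univ v =
      ∑ v ∈ WW G u, dg G (NN G u) v + ∑ v ∈ WW G u, dg G (WW G u) v := by
    rw [← Finset.sum_add_distrib]
    refine Finset.sum_congr rfl fun v hv => ?_
    rw [dg_univ_split G u v, ad_of_not G (fun h => ((mem_WW G).1 hv).2 h.symm)]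
    ring
  have e4 : ∑ v ∈ NN G u, dg G (WW G u) v = ∑ v ∈ WW G u, dg G (NN G u) v := dg_swap G _ _
  have e5 : ∑ v ∈ NN G u, dg G (NN G u) v = 2 * ∑ v ∈ LL G u k, dg G (NN G u) v
      - ∑ v ∈ LL G u k, dg G (LL G u k) v + ∑ v ∈ MM G u k, dg G (MM G u k) v := by
    rw [sum_NN G u k]
    have a1 : ∑ v ∈ MM G u k, dg G (NN G u) v =
        ∑ v ∈ MM G u k, dg G (LL G u k) v + ∑ v ∈ MM G u k, dg G (MM G u k) v := by
      rw [← Finset.sum_add_distrib]
      exact Finset.sum_congr rfl fun v _ => dg_NN_split G u k v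
    have a2 : ∑ v ∈ LL G u k, dg G (NN G u) v =
        ∑ v ∈ LL G u k, dg G (LL G u k) v + ∑ v ∈ LL G u k, dg G (MM G u k) v := by
      rw [← Finset.sum_add_distrib]
      exact Finset.sum_congr rfl fun v _ => dg_NN_split G u k v
    have a3 : ∑ v ∈ MM G u k, dg G (LL G u k) v = ∑ v ∈ LL G u k, dg G (MM G u k) v :=
      dg_swap G _ _
    linarith
  rw [e1, e2, e3, e4, e5]
  ring

/-- The basic inequality. -/
lemma Ctx.basic (h : Ctx G x lm u k) :
    2 * ∑ v ∈ LL G u k, dg G (NN G u) v * (1 - x v)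
      + 2 * ∑ v ∈ MM G u k, ((k : ℝ) - 1 - dg G (LL G u k) v) * x v
      + 2 * ∑ v ∈ WW G u, dg G (NN G u) v * (1 - x v)
      + ∑ v ∈ WW G u, dg G (WW G u) v ≤ 10 * (k : ℝ) ^ 2 := by
  have hk3 := h.k3
  have h1 := h.lm_sq
  have h2 := two_m_eq (G := G) u k
  have h3 := h.lm_eq
  have h4 := h.hE
  have h5 := MM_edges G (by linarith [h.hk]) h.hfree u
  have h6 : ∑ v ∈ LL G u k, dg G (LL G u k) v ≤ (k : ℝ) ^ 2 := by
    have hc : ((LL G u k).card : ℝ) ≤ (k : ℝ) := by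
      have := LL_card G (by linarith [h.hk]) h.hfree u
      exact_mod_cast this.trans (Nat.sub_le _ _)
    calc ∑ v ∈ LL G u k, dg G (LL G u k) v ≤ ∑ v ∈ LL G u k, (k : ℝ) :=
          Finset.sum_le_sum fun v _ => (dg_le_card G _ _).trans hc
      _ = (LL G u k).card * (k : ℝ) := by simp
      _ ≤ k * k := by gcongr
      _ = _ := by ring
  have h7 : ∑ v ∈ MM G u k, dg G (NN G u) v * x v =
      ∑ v ∈ MM G u k, dg G (LL G u k) v * x v + ∑ v ∈ MM G u k, dg G (MM G u k) v * x v := by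
    rw [← Finset.sum_add_distrib]
    refine Finset.sum_congr rfl fun v _ => ?_
    rw [dg_NN_split G u k]; ring
  have h8 : ∑ v ∈ MM G u k, dg G (MM G u k) v * x v ≤ ∑ v ∈ MM G u k, dg G (MM G u k) v := by
    refine Finset.sum_le_sum fun v _ => ?_
    have := dg_nonneg G (MM G u k) v
    have := h.hx1 v
    nlinarith
  have e1 : ∑ v ∈ LL G u k, dg G (NN G u) v * (1 - x v) =
      ∑ v ∈ LL G u k, dg G (NN G u) v - ∑ v ∈ LL G u k, dg G (NN G u) v * x v := by
    rw [← Finset.sum_sub_distrib]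
    exact Finset.sum_congr rfl fun v _ => by ring
  have e2 : ∑ v ∈ MM G u k, ((k : ℝ) - 1 - dg G (LL G u k) v) * x v =
      ((k : ℝ) - 1) * ∑ v ∈ MM G u k, x v - ∑ v ∈ MM G u k, dg G (LL G u k) v * x v := by
    rw [Finset.mul_sum, ← Finset.sum_sub_distrib]
    exact Finset.sum_congr rfl fun v _ => by ring
  have e3 : ∑ v ∈ WW G u, dg G (NN G u) v * (1 - x v) =
      ∑ v ∈ WW G u, dg G (NN G u) v - ∑ v ∈ WW G u, dg G (NN G u) v * x v := by
    rw [← Finset.sum_sub_distrib]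
    exact Finset.sum_congr rfl fun v _ => by ring
  have h9 : 0 ≤ ∑ v ∈ LL G u k, x v := Finset.sum_nonneg fun v _ => h.hx0 v
  have h10 : 0 ≤ ((k : ℝ) - 1) * ∑ v ∈ LL G u k, x v := mul_nonneg (by linarith) h9
  rw [e1, e2, e3]
  have h11 : ((k : ℝ) - 1) * lm =
      ((k : ℝ) - 1) * ∑ v ∈ LL G u k, x v + ((k : ℝ) - 1) * ∑ v ∈ MM G u k, x v := by
    rw [h3]; ring
  rw [h2, h1] at h4
  linarith

end Pool.Agent.F3
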