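import Pool.Agent.Hhelper34.F3.Core1

set_option linter.unusedSectionVars false
set_option linter.unusedVariables false

namespace Pool.Agent.F3
open SimpleGraph Finset

universe u

variable {V : Type u} [Fintype V] [DecidableEq V] {G : SimpleGraph V} [DecidableRel G.Adj]
variable {x : V → ℝ} {lm : ℝ} {u : V} {k : ℕ}

lemma Ctx.cardLL (h : Ctx G x lm u k) : ((LL G u k).card : ℝ) ≤ (k : ℝ) - 1 := by
  have h1 := LL_card G (by linarith [h.hk]) h.hfree u
  have h2 : (LL G u k).card + 1 ≤ k := by have := h.hk; omega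
  have h3 : (((LL G u k).card + 1 : ℕ) : ℝ) ≤ (k : ℝ) := by exact_mod_cast h2
  push_cast at h3
  linarith

lemma Ctx.dgLL (h : Ctx G x lm u k) (v : V) : dg G (LL G u k) v ≤ (k : ℝ) - 1 :=
  (dg_le_card G _ _).trans h.cardLL

lemma Ctx.n1 (h : Ctx G x lm u k) (A : Finset V) :
    0 ≤ ∑ v ∈ A, dg G (NN G u) v * (1 - x v) :=
  Finset.sum_nonneg fun v _ => mul_nonneg (dg_nonneg G _ _) (by linarith [h.hx1 v])

lemma Ctx.n2 (h : Ctx G x lm u k) (A : Finset V) :
    0 ≤ ∑ v ∈ A, ((k : ℝ) - 1 - dg G (LL G u k) v) * x v :=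
  Finset.sum_nonneg fun v _ => mul_nonneg (by linarith [h.dgLL v]) (h.hx0 v)

lemma n4 (A B : Finset V) : 0 ≤ ∑ v ∈ A, dg G B v :=
  Finset.sum_nonneg fun v _ => dg_nonneg G _ _

lemma Ctx.P1 (h : Ctx G x lm u k) :
    ∑ v ∈ LL G u k, dg G (NN G u) v * (1 - x v) ≤ 5 * (k : ℝ) ^ 2 := by
  have := h.basic
  have := h.n2 (MM G u k)
  have := h.n1 (WW G u)
  have := n4 (G := G) (WW G u) (WW G u)
  linarith

lemma Ctx.P2 (h : Ctx G x lm u k) :
    ∑ v ∈ MM G u k, ((k : ℝ) - 1 - dg G (LL G u k) v) * x v ≤ 5 * (k : ℝ) ^ 2 := by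
  have := h.basic
  have := h.n1 (LL G u k)
  have := h.n1 (WW G u)
  have := n4 (G := G) (WW G u) (WW G u)
  linarith

lemma Ctx.P3 (h : Ctx G x lm u k) :
    ∑ v ∈ WW G u, dg G (NN G u) v * (1 - x v) ≤ 5 * (k : ℝ) ^ 2 := by
  have := h.basic
  have := h.n1 (LL G u k)
  have := h.n2 (MM G u k)
  have := n4 (G := G) (WW G u) (WW G u)
  linarith

lemma Ctx.P4 (h : Ctx G x lm u k) :
    ∑ v ∈ WW G u, dg G (WW G u) v ≤ 10 * (k : ℝ) ^ 2 := by
  have := h.basic
  have := h.n1 (LL G u k)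
  have := h.n2 (MM G u k)
  have := h.n1 (WW G u)
  linarith

lemma Ctx.P1v (h : Ctx G x lm u k) {v : V} (hv : v ∈ LL G u k) :
    dg G (NN G u) v * (1 - x v) ≤ 5 * (k : ℝ) ^ 2 := by
  refine le_trans ?_ h.P1
  exact Finset.single_le_sum (f := fun v => dg G (NN G u) v * (1 - x v))
    (fun v _ => mul_nonneg (dg_nonneg G _ _) (by linarith [h.hx1 v])) hv

lemma Ctx.P3v (h : Ctx G x lm u k) {v : V} (hv : v ∈ WW G u) :
    dg G (NN G u) v * (1 - x v) ≤ 5 * (k : ℝ) ^ 2 := by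
  refine le_trans ?_ h.P3
  exact Finset.single_le_sum (f := fun v => dg G (NN G u) v * (1 - x v))
    (fun v _ => mul_nonneg (dg_nonneg G _ _) (by linarith [h.hx1 v])) hv

lemma Ctx.P4v (h : Ctx G x lm u k) {v : V} (hv : v ∈ WW G u) :
    dg G (WW G u) v ≤ 10 * (k : ℝ) ^ 2 := by
  refine le_trans ?_ h.P4
  exact Finset.single_le_sum (f := fun v => dg G (WW G u) v)
    (fun v _ => dg_nonneg G _ _) hv

lemma Ctx.sumLL (h : Ctx G x lm u k) : ∑ v ∈ LL G u k, x v ≤ (k : ℝ) - 1 := by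
  calc ∑ v ∈ LL G u k, x v ≤ ∑ v ∈ LL G u k, (1 : ℝ) := Finset.sum_le_sum fun v _ => h.hx1 v
    _ = ((LL G u k).card : ℝ) := by simp
    _ ≤ _ := h.cardLL

lemma Ctx.LL_card_eq (h : Ctx G x lm u k) : (LL G u k).card = k - 1 := by
  have h1 := LL_card G (by linarith [h.hk]) h.hfree u
  by_contra hne
  have h2 : (LL G u k).card + 2 ≤ k := by have := h.hk; omega
  have h3 : ((LL G u k).card : ℝ) ≤ (k : ℝ) - 2 := by
    have : (((LL G u k).card + 2 : ℕ) : ℝ) ≤ (k : ℝ) := by exact_mod_cast h2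
    push_cast at this
    linarith
  have h4 : ∑ v ∈ MM G u k, x v ≤
      ∑ v ∈ MM G u k, ((k : ℝ) - 1 - dg G (LL G u k) v) * x v := by
    refine Finset.sum_le_sum fun v _ => ?_
    have h5 := (dg_le_card G (LL G u k) v).trans h3
    have h6 := h.hx0 v
    nlinarith
  have h5 := h.P2
  have h6 := h.lm_eq
  have h7 := h.sumLL
  have h8 := h.big (j := 2) (by norm_num)
  have h9 := h.k3
  nlinarith

/-- common neighbours -/
def TT (G : SimpleGraph V) [DecidableRel G.Adj] (u : V) (k : ℕ) : Finset V :=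
  (MM G u k).filter (fun v => ∀ c ∈ LL G u k, G.Adj v c)

lemma TT_sub (u : V) (k : ℕ) : TT G u k ⊆ MM G u k := Finset.filter_subset _ _

lemma Ctx.sumTT (h : Ctx G x lm u k) : lm - 6 * (k : ℝ) ^ 2 ≤ ∑ v ∈ TT G u k, x v := by
  have h1 : ∑ v ∈ MM G u k, x v - ∑ v ∈ TT G u k, x v ≤ 5 * (k : ℝ) ^ 2 := by
    have e1 : ∑ v ∈ MM G u k, x v = ∑ v ∈ TT G u k, x v +
        ∑ v ∈ (MM G u k).filter (fun v => ¬ ∀ c ∈ LL G u k, G.Adj v c), x v := by
      unfold TT
      rw [Finset.sum_filter_add_sum_filter_not]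
    rw [e1, add_sub_cancel_left]
    refine le_trans ?_ h.P2
    refine le_trans (b := ∑ v ∈ (MM G u k).filter (fun v => ¬ ∀ c ∈ LL G u k, G.Adj v c),
      ((k : ℝ) - 1 - dg G (LL G u k) v) * x v) ?_ ?_
    · refine Finset.sum_le_sum fun v hv => ?_
      rw [Finset.mem_filter] at hv
      obtain ⟨_, hv⟩ := hv
      push Not at hv
      obtain ⟨c, hc, hvc⟩ := hv
      have h2 : dg G (LL G u k) v ≤ (k : ℝ) - 2 := by
        have e : dg G (LL G u k) v = ad G v c + dg G ((LL G u k).erase c) v := by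
          unfold dg
          rw [Finset.add_sum_erase _ _ hc]
        rw [e, ad_of_not G hvc, zero_add]
        refine (dg_le_card G _ _).trans ?_
        rw [Finset.card_erase_of_mem hc, h.LL_card_eq]
        have := h.hk
        have h3 : k - 1 - 1 + 2 = k := by omega
        have h4 : (((k - 1 - 1) + 2 : ℕ) : ℝ) = (k : ℝ) := by exact_mod_cast h3
        push_cast at h4 ⊢
        linarith
      have h6 := h.hx0 v
      nlinarith
    · exact Finset.sum_le_sum_of_subset_of_nonneg (Finset.filter_subset _ _)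
        fun v _ _ => mul_nonneg (by linarith [h.dgLL v]) (h.hx0 v)
  have h2 := h.lm_eq
  have h3 := h.sumLL
  have h4 := h.k3
  nlinarith

lemma Ctx.TT_card (h : Ctx G x lm u k) : lm - 6 * (k : ℝ) ^ 2 ≤ ((TT G u k).card : ℝ) := by
  refine h.sumTT.trans ?_
  calc ∑ v ∈ TT G u k, x v ≤ ∑ v ∈ TT G u k, (1 : ℝ) := Finset.sum_le_sum fun v _ => h.hx1 v
    _ = _ := by simp

lemma TT_adj {u v c : V} {k : ℕ} (hv : v ∈ TT G u k) (hc : c ∈ LL G u k) : G.Adj v c :=
  (Finset.mem_filter.1 hv).2 c hc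

lemma Ctx.dgNN_LL (h : Ctx G x lm u k) {v : V} (hv : v ∈ LL G u k) :
    lm - 6 * (k : ℝ) ^ 2 ≤ dg G (NN G u) v := by
  refine h.TT_card.trans ?_
  have h1 : ((TT G u k).card : ℝ) = dg G (TT G u k) v := by
    unfold dg
    rw [Finset.sum_congr rfl fun w hw => ad_of_adj G (TT_adj hw hv).symm]
    simp
  rw [h1]
  exact dg_mono G ((TT_sub u k).trans (MM_sub G u k)) v

lemma Ctx.xLL (h : Ctx G x lm u k) {v : V} (hv : v ∈ LL G u k) : 3 / 4 ≤ x v := by
  have h1 := h.dgNN_LL hv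
  have h2 := h.P1v hv
  have h3 := h.big (j := 2) (by norm_num)
  have h4 := h.hx1 v
  have h5 := h.k3
  by_contra hcon
  push Not at hcon
  nlinarith

/-- the exceptional set -/
noncomputable def W1 (G : SimpleGraph V) [DecidableRel G.Adj] (x : V → ℝ) (u : V) : Finset V :=
  (WW G u).filter (fun w => 1 / 2 < x w)

/-- the rest of `W` -/
noncomputable def W0 (G : SimpleGraph V) [DecidableRel G.Adj] (x : V → ℝ) (u : V) : Finset V :=
  (WW G u).filter (fun w => ¬ 1 / 2 < x w)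

lemma W1_sub : W1 G x u ⊆ WW G u := Finset.filter_subset _ _
lemma W0_sub : W0 G x u ⊆ WW G u := Finset.filter_subset _ _

lemma sum_WW (f : V → ℝ) : ∑ v ∈ WW G u, f v = ∑ v ∈ W1 G x u, f v + ∑ v ∈ W0 G x u, f v := by
  unfold W1 W0
  rw [Finset.sum_filter_add_sum_filter_not]

lemma dg_WW_split (v : V) : dg G (WW G u) v = dg G (W1 G x u) v + dg G (W0 G x u) v := by
  unfold dg; exact sum_WW _

lemma nb_WW_split (y : V → ℝ) (v : V) :
    nb G y (WW G u) v = nb G y (W1 G x u) v + nb G y (W0 G x u) v := by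
  unfold nb; exact sum_WW _

/-- eigen-equation for `w ∈ W` -/
lemma Ctx.eigWW (h : Ctx G x lm u k) {w : V} (hw : w ∈ WW G u) :
    lm * x w = nb G x (NN G u) w + nb G x (WW G u) w := by
  rw [h.heig w, nb_univ_split G x u w, ad_of_not G (fun h' => ((mem_WW G).1 hw).2 h'.symm)]
  ring

lemma Ctx.eigNN (h : Ctx G x lm u k) {w : V} (hw : w ∈ NN G u) :
    lm * x w = 1 + nb G x (NN G u) w + nb G x (WW G u) w := by
  rw [h.heig w, nb_univ_split G x u w, ad_of_adj G ((mem_NN G).1 hw).symm, h.hu]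
  ring

lemma Ctx.W1_deg (h : Ctx G x lm u k) {w : V} (hw : w ∈ W1 G x u) :
    lm / 4 ≤ dg G (NN G u) w := by
  have hw' := W1_sub hw
  have h1 := h.eigWW hw'
  have h2 := nb_le_dg G h.hx1 (NN G u) w
  have h3 := nb_le_dg G h.hx1 (WW G u) w
  have h4 := h.P4v hw'
  have h5 : 1 / 2 < x w := (Finset.mem_filter.1 hw).2
  have h6 := h.big (j := 2) (by norm_num)
  have h7 := h.lmpos
  nlinarith

/-- weighted co-degree bound in `N` for vertices of `W1` -/
lemma Ctx.codeg (h : Ctx G x lm u k) {w : V} (hw : w ∈ WW G u) :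
    ∑ v ∈ NN G u, (1 - ad G w v) * x v = lm * (1 - x w) + nb G x (WW G u) w := by
  have h1 := h.eigWW hw
  have h2 := h.lm_eq
  rw [← sum_NN G u k] at h2
  have h3 : ∑ v ∈ NN G u, (1 - ad G w v) * x v = ∑ v ∈ NN G u, x v - nb G x (NN G u) w := by
    unfold nb
    rw [← Finset.sum_sub_distrib]
    exact Finset.sum_congr rfl fun v _ => by ring
  rw [h3, ← h2]
  linarith

lemma Ctx.W1_card (h : Ctx G x lm u k) : ((W1 G x u).card : ℝ) ≤ 91 * (k : ℝ) ^ 2 := by
  classical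
  have hk3 := h.k3
  have hlm := h.lmpos
  have hbig2 := h.big (j := 2) (by norm_num)
  -- three pieces
  set A := (W1 G x u).filter (fun w => 1 / 4 < lm * (1 - x w)) with hA
  set B := (W1 G x u).filter (fun w => 1 ≤ dg G (WW G u) w) with hB
  set C := (W1 G x u).filter (fun w => ¬ (1 / 4 < lm * (1 - x w)) ∧ ¬ (1 ≤ dg G (WW G u) w))
    with hC
  have hcover : W1 G x u ⊆ A ∪ (B ∪ C) := by
    intro w hw
    simp only [hA, hB, hC, mem_union, mem_filter]
    tauto
  have hAc : (A.card : ℝ) ≤ 80 * (k : ℝ) ^ 2 := by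
    have h1 : (A.card : ℝ) * (1 / 16) ≤ ∑ v ∈ A, dg G (NN G u) v * (1 - x v) := by
      rw [← nsmul_eq_mul, ← Finset.sum_const]
      refine Finset.sum_le_sum fun w hw => ?_
      rw [hA, Finset.mem_filter] at hw
      have h2 := h.W1_deg hw.1
      have h3 : 0 ≤ 1 - x w := by linarith [h.hx1 w]
      have h4 := hw.2
      calc (1 : ℝ) / 16 = (1 / 4) * (1 / 4) := by norm_num
        _ ≤ (lm * (1 - x w)) * (1 / 4) := by
            have := h4.le
            linarith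
        _ = lm / 4 * (1 - x w) := by ring
        _ ≤ dg G (NN G u) w * (1 - x w) := by gcongr
    have h2 : ∑ v ∈ A, dg G (NN G u) v * (1 - x v) ≤
        ∑ v ∈ WW G u, dg G (NN G u) v * (1 - x v) :=
      Finset.sum_le_sum_of_subset_of_nonneg ((Finset.filter_subset _ _).trans W1_sub)
        fun v _ _ => mul_nonneg (dg_nonneg G _ _) (by linarith [h.hx1 v])
    have h3 := h.P3
    linarith
  have hBc : (B.card : ℝ) ≤ 10 * (k : ℝ) ^ 2 := by
    have h1 : (B.card : ℝ) ≤ ∑ v ∈ B, dg G (WW G u) v := by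
      calc (B.card : ℝ) = ∑ v ∈ B, (1 : ℝ) := by simp
        _ ≤ _ := Finset.sum_le_sum fun w hw => (Finset.mem_filter.1 hw).2
    have h2 : ∑ v ∈ B, dg G (WW G u) v ≤ ∑ v ∈ WW G u, dg G (WW G u) v :=
      Finset.sum_le_sum_of_subset_of_nonneg ((Finset.filter_subset _ _).trans W1_sub)
        fun v _ _ => dg_nonneg G _ _
    linarith [h.P4]
  have hCc : C.card ≤ k - 1 := by
    have hLL : (LL G u k).Nonempty := by
      rw [← Finset.card_pos, h.LL_card_eq]
      have := h.hk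
      omega
    obtain ⟨v0, hv0⟩ := hLL
    -- properties of members of C
    have key : ∀ w ∈ C, ∑ v ∈ NN G u, (1 - ad G w v) * x v ≤ 1 / 4 := by
      intro w hw
      rw [hC, Finset.mem_filter] at hw
      obtain ⟨hw1, hw2, hw3⟩ := hw
      have hwW := W1_sub hw1
      rw [h.codeg hwW]
      have h0 : dg G (WW G u) w = 0 := by
        rw [dg_eq_card] at hw3 ⊢
        have : ((WW G u).filter (G.Adj w)).card = 0 := by
          by_contra hne
          apply hw3
          have : 1 ≤ ((WW G u).filter (G.Adj w)).card := by omega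
          exact_mod_cast this
        rw [this]; simp
      have h1 := nb_le_dg G h.hx1 (WW G u) w
      linarith [not_lt.1 hw2]
    have keyterm : ∀ w ∈ C, ∀ v ∈ NN G u, (1 - ad G w v) * x v ≤ 1 / 4 := by
      intro w hw v hv
      refine le_trans ?_ (key w hw)
      exact Finset.single_le_sum (f := fun v => (1 - ad G w v) * x v)
        (fun v _ => mul_nonneg (by linarith [ad_le_one G w v]) (h.hx0 v)) hv
    have hadjv0 : ∀ w ∈ C, G.Adj v0 w := by
      intro w hw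
      by_contra hcon
      have h1 := keyterm w hw v0 (LL_sub G u k hv0)
      rw [ad_of_not G (fun h' => hcon h'.symm)] at h1
      have h2 := h.xLL hv0
      linarith
    refine card_le_of_free G (by linarith [h.hk]) h.hfree v0 C ?_ ?_
    · intro w hw
      exact (mem_NN G).2 (hadjv0 w hw)
    · intro w hw
      have h1 : dg G (TT G u k) w ≤ dg G (NN G v0) w := by
        apply dg_mono
        intro t ht
        exact (mem_NN G).2 (TT_adj ht hv0).symm
      have h2 : lm - 6 * (k : ℝ) ^ 2 - 1 / 4 ≤ dg G (TT G u k) w := by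
        have h3 : ∑ v ∈ TT G u k, (1 - ad G w v) * x v ≤ ∑ v ∈ NN G u, (1 - ad G w v) * x v :=
          Finset.sum_le_sum_of_subset_of_nonneg ((TT_sub u k).trans (MM_sub G u k))
            fun v _ _ => mul_nonneg (by linarith [ad_le_one G w v]) (h.hx0 v)
        have h4 : ∑ v ∈ TT G u k, (1 - ad G w v) * x v =
            ∑ v ∈ TT G u k, x v - nb G x (TT G u k) w := by
          unfold nb
          rw [← Finset.sum_sub_distrib]
          exact Finset.sum_congr rfl fun v _ => by ring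
        have h5 := nb_le_dg G h.hx1 (TT G u k) w
        have h6 := h.sumTT
        have h7 := key w hw
        linarith
      have h3 : (2 * (k : ℝ)) ≤ dg G (NN G v0) w + 1 := by nlinarith
      rw [dg_eq_card] at h3
      exact_mod_cast h3
  have h1 : (W1 G x u).card ≤ A.card + (B.card + C.card) := by
    calc (W1 G x u).card ≤ (A ∪ (B ∪ C)).card := Finset.card_le_card hcover
      _ ≤ A.card + (B ∪ C).card := Finset.card_union_le _ _
      _ ≤ _ := Nat.add_le_add_left (Finset.card_union_le _ _) _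
  have h2 : ((W1 G x u).card : ℝ) ≤ A.card + (B.card + C.card) := by exact_mod_cast h1
  have h3 : (C.card : ℝ) ≤ (k : ℝ) := by
    exact_mod_cast hCc.trans (Nat.sub_le _ _)
  nlinarith

/-- degree sum of `W0` into `N` -/
lemma Ctx.W0_deg (h : Ctx G x lm u k) : ∑ w ∈ W0 G x u, dg G (NN G u) w ≤ 10 * (k : ℝ) ^ 2 := by
  have h1 : ∑ w ∈ W0 G x u, dg G (NN G u) w ≤
      2 * ∑ w ∈ W0 G x u, dg G (NN G u) w * (1 - x w) := by
    rw [Finset.mul_sum]
    refine Finset.sum_le_sum fun w hw => ?_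
    have h2 := (Finset.mem_filter.1 hw).2
    have h3 := dg_nonneg G (NN G u) w
    nlinarith [not_lt.1 h2]
  have h2 : ∑ w ∈ W0 G x u, dg G (NN G u) w * (1 - x w) ≤
      ∑ w ∈ WW G u, dg G (NN G u) w * (1 - x w) :=
    Finset.sum_le_sum_of_subset_of_nonneg W0_sub
        fun v _ _ => mul_nonneg (dg_nonneg G _ _) (by linarith [h.hx1 v])
  linarith [h.P3]

lemma Ctx.W0_degv (h : Ctx G x lm u k) {w : V} (hw : w ∈ W0 G x u) :
    dg G (NN G u) w ≤ 10 * (k : ℝ) ^ 2 := by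
  refine le_trans ?_ h.W0_deg
  exact Finset.single_le_sum (f := fun v => dg G (NN G u) v) (fun v _ => dg_nonneg G _ _) hw

/-- number of neighbours in `W0` of a vertex of `N` -/
lemma Ctx.dgW0 (h : Ctx G x lm u k) {v : V} (hv : v ∈ NN G u) :
    dg G (W0 G x u) v ≤ 10 * (k : ℝ) ^ 2 := by
  refine le_trans ?_ h.W0_deg
  rw [← dg_swap]
  exact Finset.single_le_sum (f := fun v => dg G (W0 G x u) v) (fun v _ => dg_nonneg G _ _) hv

lemma Ctx.xMM (h : Ctx G x lm u k) {v : V} (hv : v ∈ MM G u k) :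
    lm * x v ≤ 102 * (k : ℝ) ^ 2 := by
  have hv' := MM_sub G u k hv
  rw [h.eigNN hv', nb_WW_split (x := x)]
  have h1 := (nb_le_dg G h.hx1 (NN G u) v).trans (MM_deg G (by linarith [h.hk]) hv)
  have h2 := (nb_le_dg G h.hx1 (W1 G x u) v).trans ((dg_le_card G _ _).trans h.W1_card)
  have h3 := (nb_le_dg G h.hx1 (W0 G x u) v).trans (h.dgW0 hv')
  have h4 := h.k3
  nlinarith

lemma Ctx.xW0 (h : Ctx G x lm u k) {v : V} (hv : v ∈ W0 G x u) :
    lm * x v ≤ 102 * (k : ℝ) ^ 2 := by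
  have hv' := W0_sub hv
  rw [h.eigWW hv']
  have h1 := (nb_le_dg G h.hx1 (NN G u) v).trans (h.W0_degv hv)
  have h2 := (nb_le_dg G h.hx1 (WW G u) v).trans (h.P4v hv')
  have h4 := h.k3
  nlinarith

lemma Ctx.xMM' (h : Ctx G x lm u k) {v : V} (hv : v ∈ MM G u k) :
    x v ≤ 102 * (k : ℝ) ^ 2 / lm := by
  rw [le_div_iff₀ h.lmpos]
  linarith [h.xMM hv]

lemma Ctx.xW0' (h : Ctx G x lm u k) {v : V} (hv : v ∈ W0 G x u) :
    x v ≤ 102 * (k : ℝ) ^ 2 / lm := by
  rw [le_div_iff₀ h.lmpos]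
  linarith [h.xW0 hv]

/-- The large vertices have `x` very close to one. -/
lemma Ctx.close_of (h : Ctx G x lm u k) {b : V}
    (h1 : lm / 2 ≤ 103 * (k : ℝ) ^ 2 + nb G x (MM G u k) b)
    (h2 : dg G (NN G u) b * (1 - x b) ≤ 5 * (k : ℝ) ^ 2) :
    (1 - x b) * lm ^ 2 ≤ 2040 * (k : ℝ) ^ 4 := by
  have hk3 := h.k3
  have hlm := h.lmpos
  have hb2 := h.big (j := 2) (by norm_num)
  have h3 : nb G x (MM G u k) b ≤ dg G (MM G u k) b * (102 * (k : ℝ) ^ 2 / lm) :=
    nb_le_dg_mul G (fun v hv => h.xMM' hv) b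
  have h4 : dg G (MM G u k) b ≤ dg G (NN G u) b := dg_mono G (MM_sub G u k) b
  have h5 : lm / 4 ≤ dg G (NN G u) b * (102 * (k : ℝ) ^ 2 / lm) := by
    have h6 : dg G (MM G u k) b * (102 * (k : ℝ) ^ 2 / lm) ≤
        dg G (NN G u) b * (102 * (k : ℝ) ^ 2 / lm) := by
      apply mul_le_mul_of_nonneg_right h4
      positivity
    nlinarith
  have h6 : lm ^ 2 ≤ dg G (NN G u) b * (408 * (k : ℝ) ^ 2) := by
    have h7 : dg G (NN G u) b * (102 * (k : ℝ) ^ 2 / lm) * (4 * lm) =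
        dg G (NN G u) b * (408 * (k : ℝ) ^ 2) := by
      field_simp
      ring
    rw [← h7]
    have h8 := mul_le_mul_of_nonneg_right h5 (by positivity : (0:ℝ) ≤ 4 * lm)
    calc lm ^ 2 = lm / 4 * (4 * lm) := by ring
      _ ≤ _ := h8
  have h7 : 0 ≤ 1 - x b := by linarith [h.hx1 b]
  calc (1 - x b) * lm ^ 2 ≤ (1 - x b) * (dg G (NN G u) b * (408 * (k : ℝ) ^ 2)) := by gcongr
    _ = (dg G (NN G u) b * (1 - x b)) * (408 * (k : ℝ) ^ 2) := by ring
    _ ≤ (5 * (k : ℝ) ^ 2) * (408 * (k : ℝ) ^ 2) := by gcongr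
    _ = _ := by ring

lemma Ctx.closeLL (h : Ctx G x lm u k) {b : V} (hb : b ∈ LL G u k) :
    (1 - x b) * lm ^ 2 ≤ 2040 * (k : ℝ) ^ 4 := by
  refine h.close_of ?_ (h.P1v hb)
  have h0 := h.eigNN (LL_sub G u k hb)
  rw [nb_NN_split G x u k, nb_WW_split (x := x)] at h0
  have h1 := (nb_le_dg G h.hx1 (LL G u k) b).trans (h.dgLL b)
  have h2 := (nb_le_dg G h.hx1 (W1 G x u) b).trans ((dg_le_card G _ _).trans h.W1_card)
  have h3 := (nb_le_dg G h.hx1 (W0 G x u) b).trans (h.dgW0 (LL_sub G u k hb))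
  have h4 := h.xLL hb
  have h5 := h.lmpos
  have h6 := h.k3
  nlinarith

lemma Ctx.closeW1 (h : Ctx G x lm u k) {b : V} (hb : b ∈ W1 G x u) :
    (1 - x b) * lm ^ 2 ≤ 2040 * (k : ℝ) ^ 4 := by
  refine h.close_of ?_ (h.P3v (W1_sub hb))
  have h0 := h.eigWW (W1_sub hb)
  rw [nb_NN_split G x u k] at h0
  have h1 := (nb_le_dg G h.hx1 (LL G u k) b).trans (h.dgLL b)
  have h2 := (nb_le_dg G h.hx1 (WW G u) b).trans (h.P4v (W1_sub hb))
  have h4 : 1 / 2 < x b := (Finset.mem_filter.1 hb).2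
  have h5 := h.lmpos
  have h6 := h.k3
  nlinarith

end Pool.Agent.F3
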