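import Pool.Agent.Hhelper34.F3.Core2

set_option linter.unusedSectionVars false
set_option linter.unusedVariables false

namespace Pool.Agent.F3
open SimpleGraph Finset

universe u

variable {V : Type u} [Fintype V] [DecidableEq V] {G : SimpleGraph V} [DecidableRel G.Adj]
variable {x : V → ℝ} {lm : ℝ} {u : V} {k : ℕ}

/-- the big vertices -/
noncomputable def BB (G : SimpleGraph V) [DecidableRel G.Adj] (x : V → ℝ) (u : V) (k : ℕ) :
    Finset V := insert u (LL G u k ∪ W1 G x u)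

/-- the small vertices -/
noncomputable def II (G : SimpleGraph V) [DecidableRel G.Adj] (x : V → ℝ) (u : V) (k : ℕ) :
    Finset V := MM G u k ∪ W0 G x u

lemma NN_WW_disj {v : V} (h1 : v ∈ NN G u) (h2 : v ∈ WW G u) : False :=
  ((mem_WW G).1 h2).2 ((mem_NN G).1 h1)

lemma u_notin_NN : u ∉ NN G u := fun h => G.loopless.irrefl _ ((mem_NN G).1 h)

lemma u_notin_WW : u ∉ WW G u := fun h => ((mem_WW G).1 h).1 rfl

lemma sum_BB (f : V → ℝ) :
    ∑ v ∈ BB G x u k, f v = f u + ∑ v ∈ LL G u k, f v + ∑ v ∈ W1 G x u, f v := by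
  unfold BB
  rw [Finset.sum_insert, Finset.sum_union, add_assoc]
  · rw [Finset.disjoint_left]
    intro v hv hv'
    exact NN_WW_disj (LL_sub G u k hv) (W1_sub hv')
  · rw [Finset.mem_union]
    rintro (h | h)
    · exact u_notin_NN (LL_sub G u k h)
    · exact u_notin_WW (W1_sub h)

lemma sum_II (f : V → ℝ) :
    ∑ v ∈ II G x u k, f v = ∑ v ∈ MM G u k, f v + ∑ v ∈ W0 G x u, f v := by
  unfold II
  rw [Finset.sum_union]
  rw [Finset.disjoint_left]
  intro v hv hv'
  exact NN_WW_disj (MM_sub G u k hv) (W0_sub hv')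

lemma sum_univ_BI (f : V → ℝ) :
    ∑ v, f v = ∑ v ∈ BB G x u k, f v + ∑ v ∈ II G x u k, f v := by
  rw [sum_BB, sum_II, sum_split G u, sum_NN G u k, sum_WW (x := x)]
  ring

lemma dg_BI (v : V) : dg G univ v = dg G (BB G x u k) v + dg G (II G x u k) v := by
  unfold dg; exact sum_univ_BI _

lemma nb_BI (v : V) : nb G x univ v = nb G x (BB G x u k) v + nb G x (II G x u k) v := by
  unfold nb; exact sum_univ_BI _

lemma dg_II (v : V) : dg G (II G x u k) v = dg G (MM G u k) v + dg G (W0 G x u) v := by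
  unfold dg; exact sum_II _

lemma nb_II (v : V) : nb G x (II G x u k) v = nb G x (MM G u k) v + nb G x (W0 G x u) v := by
  unfold nb; exact sum_II _

lemma mem_BB {b : V} : b ∈ BB G x u k ↔ b = u ∨ b ∈ LL G u k ∨ b ∈ W1 G x u := by
  simp [BB]

lemma mem_II {b : V} : b ∈ II G x u k ↔ b ∈ MM G u k ∨ b ∈ W0 G x u := by
  simp [II]

lemma compl_BB : (BB G x u k)ᶜ = II G x u k := by
  ext v
  rw [Finset.mem_compl, mem_BB, mem_II]
  constructor
  · intro h
    push Not at h
    obtain ⟨h1, h2, h3⟩ := h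
    by_cases hv : G.Adj u v
    · left
      unfold MM
      rw [Finset.mem_filter]
      refine ⟨(mem_NN G).2 hv, fun hc => h2 ?_⟩
      unfold LL
      rw [Finset.mem_filter]
      exact ⟨(mem_NN G).2 hv, hc⟩
    · right
      unfold W0
      rw [Finset.mem_filter]
      refine ⟨(mem_WW G).2 ⟨h1, hv⟩, fun hc => h3 ?_⟩
      unfold W1
      rw [Finset.mem_filter]
      exact ⟨(mem_WW G).2 ⟨h1, hv⟩, hc⟩
  · rintro (h | h) (h' | h' | h')
    · subst h'; exact u_notin_NN (MM_sub G _ k h)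
    · exact (Finset.mem_filter.1 h).2 (Finset.mem_filter.1 h').2
    · exact NN_WW_disj (MM_sub G u k h) (W1_sub h')
    · subst h'; exact u_notin_WW (W0_sub h)
    · exact NN_WW_disj (LL_sub G u k h') (W0_sub h)
    · exact (Finset.mem_filter.1 h).2 (Finset.mem_filter.1 h').2

lemma Ctx.close (h : Ctx G x lm u k) {b : V} (hb : b ∈ BB G x u k) :
    (1 - x b) * lm ^ 2 ≤ 2040 * (k : ℝ) ^ 4 := by
  rw [mem_BB] at hb
  rcases hb with hb | hb | hb
  · subst hb
    rw [h.hu]
    have := h.k3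
    have : (0 : ℝ) ≤ 2040 * (k : ℝ) ^ 4 := by positivity
    linarith
  · exact h.closeLL hb
  · exact h.closeW1 hb

lemma Ctx.close' (h : Ctx G x lm u k) {b : V} (hb : b ∈ BB G x u k) :
    1 - 2040 * (k : ℝ) ^ 4 / lm ^ 2 ≤ x b := by
  have h1 := h.close hb
  have h2 : 0 < lm ^ 2 := by have := h.lmpos; positivity
  rw [← le_div_iff₀ h2] at h1
  linarith

lemma Ctx.close_lm (h : Ctx G x lm u k) {b : V} (hb : b ∈ BB G x u k) :
    lm * (1 - x b) ≤ 2040 * (k : ℝ) ^ 4 / lm := by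
  rw [le_div_iff₀ h.lmpos]
  have := h.close hb
  linarith

lemma Ctx.xII (h : Ctx G x lm u k) {v : V} (hv : v ∈ II G x u k) :
    x v ≤ 102 * (k : ℝ) ^ 2 / lm := by
  rw [mem_II] at hv
  rcases hv with hv | hv
  · exact h.xMM' hv
  · exact h.xW0' hv

/-- co-degree into `T` -/
lemma Ctx.coT (h : Ctx G x lm u k) {b : V} (hb : b ∈ BB G x u k) :
    ∑ v ∈ TT G u k, (1 - ad G b v) * x v ≤ 11 * (k : ℝ) ^ 2 := by
  have hk3 := h.k3
  have hpos : (0 : ℝ) ≤ 11 * (k : ℝ) ^ 2 := by positivity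
  rw [mem_BB] at hb
  rcases hb with hb' | hb' | hb'
  · subst hb'
    rw [Finset.sum_eq_zero]
    · exact hpos
    · intro v hv
      rw [ad_of_adj G ((mem_NN G).1 (MM_sub G _ k (TT_sub _ k hv)))]
      ring
  · rw [Finset.sum_eq_zero]
    · exact hpos
    · intro v hv
      rw [ad_of_adj G (TT_adj hv hb').symm]
      ring
  · have h1 : ∑ v ∈ TT G u k, (1 - ad G b v) * x v ≤ ∑ v ∈ NN G u, (1 - ad G b v) * x v :=
      Finset.sum_le_sum_of_subset_of_nonneg ((TT_sub u k).trans (MM_sub G u k))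
        fun v _ _ => mul_nonneg (by linarith [ad_le_one G b v]) (h.hx0 v)
    have h2 := h.codeg (W1_sub hb')
    have h3 : lm * (1 - x b) ≤ 1 := by
      refine (h.close_lm (mem_BB.2 (Or.inr (Or.inr hb')))).trans ?_
      rw [div_le_one h.lmpos]
      have := h.big (j := 4) (by norm_num)
      have : (0 : ℝ) ≤ (k : ℝ) ^ 4 := by positivity
      linarith
    have h4 := (nb_le_dg G h.hx1 (WW G u) b).trans (h.P4v (W1_sub hb'))
    nlinarith

lemma Ctx.degBB_le (h : Ctx G x lm u k) {b : V} (hb : b ∈ BB G x u k) :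
    ((BB G x u k).filter (G.Adj b)).card ≤ k - 1 := by
  refine card_le_of_free G (by linarith [h.hk]) h.hfree b _ ?_ ?_
  · intro c hc
    exact (mem_NN G).2 (Finset.mem_filter.1 hc).2
  · intro c hc
    rw [Finset.mem_filter] at hc
    obtain ⟨hcB, hbc⟩ := hc
    have h1 : ∑ v ∈ TT G u k, ad G b v * ad G c v ≤ dg G (NN G b) c := by
      have e1 : dg G (NN G b) c = ∑ v, ad G b v * ad G c v := by
        unfold dg NN
        rw [Finset.sum_filter]
        refine Finset.sum_congr rfl fun v _ => ?_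
        by_cases hbv : G.Adj b v
        · simp [hbv, ad_of_adj G hbv]
        · simp [hbv, ad_of_not G hbv]
      rw [e1]
      exact Finset.sum_le_sum_of_subset_of_nonneg (Finset.subset_univ _)
        fun v _ _ => mul_nonneg (ad_nonneg G _ _) (ad_nonneg G _ _)
    have h2 : ∑ v ∈ TT G u k, (x v - (1 - ad G b v) * x v - (1 - ad G c v) * x v) ≤
        ∑ v ∈ TT G u k, ad G b v * ad G c v := by
      refine Finset.sum_le_sum fun v _ => ?_
      have hx0 := h.hx0 v
      have hx1 := h.hx1 v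
      by_cases hbv : G.Adj b v
      · rw [ad_of_adj G hbv]
        by_cases hcv : G.Adj c v
        · rw [ad_of_adj G hcv]; linarith
        · rw [ad_of_not G hcv]; linarith
      · rw [ad_of_not G hbv]
        by_cases hcv : G.Adj c v
        · rw [ad_of_adj G hcv]; linarith
        · rw [ad_of_not G hcv]; linarith
    rw [Finset.sum_sub_distrib, Finset.sum_sub_distrib] at h2
    have h3 := h.coT hb
    have h4 := h.coT hcB
    have h5 := h.sumTT
    have h6 := h.big (j := 2) (by norm_num)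
    have h7 := h.k3
    have h8 : 2 * (k : ℝ) ≤ dg G (NN G b) c + 1 := by nlinarith
    rw [dg_eq_card] at h8
    exact_mod_cast h8

lemma Ctx.dgBB_le (h : Ctx G x lm u k) {b : V} (hb : b ∈ BB G x u k) :
    dg G (BB G x u k) b ≤ (k : ℝ) - 1 := by
  rw [dg_eq_card]
  have h1 := h.degBB_le hb
  have h2 : ((BB G x u k).filter (G.Adj b)).card + 1 ≤ k := by have := h.hk; omega
  have h3 : ((((BB G x u k).filter (G.Adj b)).card + 1 : ℕ) : ℝ) ≤ (k : ℝ) := by exact_mod_cast h2
  push_cast at h3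
  linarith

lemma Ctx.dgW0_BB (h : Ctx G x lm u k) {b : V} (hb : b ∈ BB G x u k) :
    dg G (W0 G x u) b ≤ 10 * (k : ℝ) ^ 2 := by
  rw [mem_BB] at hb
  rcases hb with hb | hb | hb
  · subst hb
    have : dg G (W0 G x b) b = 0 := by
      unfold dg
      refine Finset.sum_eq_zero fun v hv => ?_
      exact ad_of_not G ((mem_WW G).1 (W0_sub hv)).2
    rw [this]
    positivity
  · exact h.dgW0 (LL_sub G u k hb)
  · exact (dg_mono G W0_sub b).trans (h.P4v (W1_sub hb))

lemma Ctx.key9 (h : Ctx G x lm u k) {b : V} (hb : b ∈ BB G x u k) :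
    (((k : ℝ) - 1 - dg G (BB G x u k) b) + ∑ v ∈ MM G u k, (1 - ad G b v) * x v) * lm ≤
      5100 * (k : ℝ) ^ 4 := by
  have hk3 := h.k3
  have hlm := h.lmpos
  have hb4 := h.big (j := 4) (by norm_num)
  have hb1 := h.big (j := 1) (by norm_num)
  rw [pow_one] at hb1
  have e1 := h.heig b
  rw [nb_BI (x := x) (u := u) (k := k), nb_II] at e1
  have e2 : nb G x (MM G u k) b = ∑ v ∈ MM G u k, x v - ∑ v ∈ MM G u k, (1 - ad G b v) * x v := by
    unfold nb
    rw [← Finset.sum_sub_distrib]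
    exact Finset.sum_congr rfl fun v _ => by ring
  have e3 := nb_le_dg G h.hx1 (BB G x u k) b
  have e4 : nb G x (W0 G x u) b ≤ 10 * (k : ℝ) ^ 2 * (102 * (k : ℝ) ^ 2 / lm) := by
    refine (nb_le_dg_mul G (fun v hv => h.xW0' hv) b).trans ?_
    have := h.dgW0_BB hb
    gcongr
  have e5 := h.lm_eq
  have e6 : ((k : ℝ) - 1) * (1 - 2040 * (k : ℝ) ^ 4 / lm ^ 2) ≤ ∑ v ∈ LL G u k, x v := by
    have : ((k : ℝ) - 1) = ((LL G u k).card : ℝ) := by
      rw [h.LL_card_eq]
      have := h.hk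
      rw [Nat.cast_sub (by omega)]
      simp
    rw [this, ← nsmul_eq_mul, ← Finset.sum_const]
    refine Finset.sum_le_sum fun v hv => ?_
    exact h.close' (mem_BB.2 (Or.inr (Or.inl hv)))
  have e7 := h.close_lm hb
  have e8 : ((k : ℝ) - 1 - dg G (BB G x u k) b) + ∑ v ∈ MM G u k, (1 - ad G b v) * x v ≤
      2040 * (k : ℝ) ^ 4 / lm + ((k : ℝ) - 1) * (2040 * (k : ℝ) ^ 4 / lm ^ 2) +
        10 * (k : ℝ) ^ 2 * (102 * (k : ℝ) ^ 2 / lm) := by
    have e9 : ((k : ℝ) - 1) * (1 - 2040 * (k : ℝ) ^ 4 / lm ^ 2) =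
        ((k : ℝ) - 1) - ((k : ℝ) - 1) * (2040 * (k : ℝ) ^ 4 / lm ^ 2) := by ring
    rw [e9] at e6
    have e10 : lm * (1 - x b) = lm - lm * x b := by ring
    rw [e10] at e7
    linarith
  have e9 : (2040 * (k : ℝ) ^ 4 / lm + ((k : ℝ) - 1) * (2040 * (k : ℝ) ^ 4 / lm ^ 2) +
        10 * (k : ℝ) ^ 2 * (102 * (k : ℝ) ^ 2 / lm)) * lm =
      3060 * (k : ℝ) ^ 4 + (((k : ℝ) - 1) / lm) * (2040 * (k : ℝ) ^ 4) := by
    field_simp
    ring
  have e10 : ((k : ℝ) - 1) / lm ≤ 1 := by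
    rw [div_le_one hlm]; nlinarith
  calc _ ≤ (2040 * (k : ℝ) ^ 4 / lm + ((k : ℝ) - 1) * (2040 * (k : ℝ) ^ 4 / lm ^ 2) +
        10 * (k : ℝ) ^ 2 * (102 * (k : ℝ) ^ 2 / lm)) * lm := by gcongr
    _ = 3060 * (k : ℝ) ^ 4 + (((k : ℝ) - 1) / lm) * (2040 * (k : ℝ) ^ 4) := e9
    _ ≤ 3060 * (k : ℝ) ^ 4 + 1 * (2040 * (k : ℝ) ^ 4) := by gcongr
    _ = _ := by ring

lemma Ctx.coMM_nonneg (h : Ctx G x lm u k) (b : V) :
    0 ≤ ∑ v ∈ MM G u k, (1 - ad G b v) * x v :=
  Finset.sum_nonneg fun v _ => mul_nonneg (by linarith [ad_le_one G b v]) (h.hx0 v)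

/-- regularity of the graph on the big vertices -/
lemma Ctx.degBB (h : Ctx G x lm u k) {b : V} (hb : b ∈ BB G x u k) :
    ((BB G x u k).filter (G.Adj b)).card = k - 1 := by
  have h1 := h.degBB_le hb
  by_contra hne
  have h2 : ((BB G x u k).filter (G.Adj b)).card + 2 ≤ k := by have := h.hk; omega
  have h3 : dg G (BB G x u k) b ≤ (k : ℝ) - 2 := by
    rw [dg_eq_card]
    have : ((((BB G x u k).filter (G.Adj b)).card + 2 : ℕ) : ℝ) ≤ (k : ℝ) := by exact_mod_cast h2
    push_cast at this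
    linarith
  have h4 := h.key9 hb
  have h5 := h.coMM_nonneg b
  have h6 := h.big (j := 4) (by norm_num)
  have h7 := h.lmpos
  have h8 : (0 : ℝ) < (k : ℝ) ^ 4 := by have := h.k3; positivity
  have h9 : lm ≤ (((k : ℝ) - 1 - dg G (BB G x u k) b) +
      ∑ v ∈ MM G u k, (1 - ad G b v) * x v) * lm := by
    have : 1 ≤ ((k : ℝ) - 1 - dg G (BB G x u k) b) + ∑ v ∈ MM G u k, (1 - ad G b v) * x v := by
      linarith
    nlinarith
  linarith

lemma Ctx.dgBB (h : Ctx G x lm u k) {b : V} (hb : b ∈ BB G x u k) :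
    dg G (BB G x u k) b = (k : ℝ) - 1 := by
  rw [dg_eq_card, h.degBB hb, Nat.cast_sub (by linarith [h.hk])]
  simp

/-- few vertices of `M` are not adjacent to a given big vertex -/
lemma Ctx.nonadj_card (h : Ctx G x lm u k) {b : V} (hb : b ∈ BB G x u k) :
    (((MM G u k).filter (fun v => ¬ G.Adj b v)).card : ℝ) ≤ 5100 * (k : ℝ) ^ 4 := by
  have h1 := h.key9 hb
  rw [h.dgBB hb, sub_self, zero_add] at h1
  refine le_trans ?_ h1
  rw [Finset.sum_mul]
  calc (((MM G u k).filter (fun v => ¬ G.Adj b v)).card : ℝ)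
      = ∑ v ∈ (MM G u k).filter (fun v => ¬ G.Adj b v), (1 : ℝ) := by simp
    _ ≤ ∑ v ∈ (MM G u k).filter (fun v => ¬ G.Adj b v), (1 - ad G b v) * x v * lm := by
        refine Finset.sum_le_sum fun v hv => ?_
        rw [Finset.mem_filter] at hv
        rw [ad_of_not G hv.2]
        have h2 := h.eigNN (MM_sub G u k hv.1)
        have h3 := nb_nonneg G h.hx0 (NN G u) v
        have h4 := nb_nonneg G h.hx0 (WW G u) v
        linarith
    _ ≤ _ := by
        refine Finset.sum_le_sum_of_subset_of_nonneg (Finset.filter_subset _ _) fun v _ _ => ?_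
        exact mul_nonneg (mul_nonneg (by linarith [ad_le_one G b v]) (h.hx0 v)) h.lmpos.le

lemma Ctx.card_BB (h : Ctx G x lm u k) :
    ((BB G x u k).card : ℝ) = (k : ℝ) + (W1 G x u).card := by
  have h1 : ((BB G x u k).card : ℝ) = ∑ v ∈ BB G x u k, (1 : ℝ) := by simp
  rw [h1, sum_BB]
  simp only [Finset.sum_const, nsmul_eq_mul, mul_one]
  rw [h.LL_card_eq, Nat.cast_sub (by linarith [h.hk])]
  push_cast
  ring

lemma Ctx.card_BB_ge (h : Ctx G x lm u k) : k ≤ (BB G x u k).card := by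
  have h1 := h.card_BB
  have h2 : (k : ℝ) ≤ ((BB G x u k).card : ℝ) := by
    rw [h1]; have : (0 : ℝ) ≤ (W1 G x u).card := Nat.cast_nonneg _
    linarith
  exact_mod_cast h2

lemma Ctx.card_BB_le (h : Ctx G x lm u k) : ((BB G x u k).card : ℝ) ≤ 92 * (k : ℝ) ^ 2 := by
  rw [h.card_BB]
  have := h.W1_card
  have := h.k3
  nlinarith

lemma Ctx.sum_dgII (h : Ctx G x lm u k) :
    ∑ v ∈ II G x u k, dg G (II G x u k) v ≤ 38 * (k : ℝ) ^ 2 := by
  rw [sum_II]
  have e1 : ∑ v ∈ MM G u k, dg G (II G x u k) v =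
      ∑ v ∈ MM G u k, dg G (MM G u k) v + ∑ v ∈ MM G u k, dg G (W0 G x u) v := by
    rw [← Finset.sum_add_distrib]
    exact Finset.sum_congr rfl fun v _ => dg_II v
  have e2 : ∑ v ∈ W0 G x u, dg G (II G x u k) v =
      ∑ v ∈ W0 G x u, dg G (MM G u k) v + ∑ v ∈ W0 G x u, dg G (W0 G x u) v := by
    rw [← Finset.sum_add_distrib]
    exact Finset.sum_congr rfl fun v _ => dg_II v
  have e3 : ∑ v ∈ MM G u k, dg G (W0 G x u) v = ∑ v ∈ W0 G x u, dg G (MM G u k) v := dg_swap G _ _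
  have e4 : ∑ v ∈ W0 G x u, dg G (MM G u k) v ≤ 10 * (k : ℝ) ^ 2 :=
    (Finset.sum_le_sum fun v _ => dg_mono G (MM_sub G u k) v).trans h.W0_deg
  have e5 : ∑ v ∈ W0 G x u, dg G (W0 G x u) v ≤ 10 * (k : ℝ) ^ 2 := by
    refine le_trans ?_ h.P4
    refine (Finset.sum_le_sum fun v _ => dg_mono G W0_sub v).trans ?_
    exact Finset.sum_le_sum_of_subset_of_nonneg W0_sub fun v _ _ => dg_nonneg G _ _
  have e6 := MM_edges G (by linarith [h.hk]) h.hfree u
  rw [e1, e2, e3]
  linarith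

/-- few small vertices have intermediate degree into the big vertices -/
lemma Ctx.card_mid (h : Ctx G x lm u k) :
    (((II G x u k).filter (fun v => 0 < dg G (BB G x u k) v ∧
      dg G (BB G x u k) v < ((BB G x u k).card : ℝ))).card : ℝ) ≤ 470000 * (k : ℝ) ^ 6 := by
  classical
  have hk3 := h.k3
  set J := (II G x u k).filter (fun v => 0 < dg G (BB G x u k) v ∧
      dg G (BB G x u k) v < ((BB G x u k).card : ℝ)) with hJ
  have hcover : J ⊆ ((BB G x u k).biUnion fun b => (MM G u k).filter (fun v => ¬ G.Adj b v)) ∪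
      (W0 G x u).filter (fun v => 1 ≤ dg G (NN G u) v + dg G (WW G u) v) := by
    intro v hv
    rw [hJ, Finset.mem_filter, mem_II] at hv
    obtain ⟨hv1, hv2, hv3⟩ := hv
    rw [Finset.mem_union]
    rcases hv1 with hv1 | hv1
    · left
      rw [Finset.mem_biUnion]
      by_contra hcon
      push Not at hcon
      have : dg G (BB G x u k) v = ((BB G x u k).card : ℝ) := by
        unfold dg
        rw [Finset.sum_congr rfl (g := fun _ => (1 : ℝ))]
        · simp
        · intro b hb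
          have := hcon b hb
          rw [Finset.mem_filter] at this
          push Not at this
          exact ad_of_adj G (this hv1).symm
      linarith
    · right
      rw [Finset.mem_filter]
      refine ⟨hv1, ?_⟩
      have hne : dg G (BB G x u k) v = dg G (LL G u k) v + dg G (W1 G x u) v := by
        unfold dg
        rw [sum_BB, ad_of_not G (fun h' => ((mem_WW G).1 (W0_sub hv1)).2 h'.symm)]
        ring
      have h1 : dg G (LL G u k) v ≤ dg G (NN G u) v := dg_mono G (LL_sub G u k) v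
      have h2 : dg G (W1 G x u) v ≤ dg G (WW G u) v := dg_mono G W1_sub v
      have h3 : 1 ≤ dg G (BB G x u k) v := by
        rw [dg_eq_card] at hv2 ⊢
        have : 0 < ((BB G x u k).filter (G.Adj v)).card := by exact_mod_cast hv2
        exact_mod_cast this
      linarith
  have h1 : (J.card : ℝ) ≤ ((BB G x u k).card : ℝ) * (5100 * (k : ℝ) ^ 4) + 20 * (k : ℝ) ^ 2 := by
    have a1 : J.card ≤ ∑ b ∈ BB G x u k, ((MM G u k).filter (fun v => ¬ G.Adj b v)).card +
        ((W0 G x u).filter (fun v => 1 ≤ dg G (NN G u) v + dg G (WW G u) v)).card := by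
      refine (Finset.card_le_card hcover).trans ((Finset.card_union_le _ _).trans ?_)
      exact Nat.add_le_add_right Finset.card_biUnion_le _
    have a2 : (J.card : ℝ) ≤ ∑ b ∈ BB G x u k,
        (((MM G u k).filter (fun v => ¬ G.Adj b v)).card : ℝ) +
        (((W0 G x u).filter (fun v => 1 ≤ dg G (NN G u) v + dg G (WW G u) v)).card : ℝ) := by
      exact_mod_cast a1
    have a3 : ∑ b ∈ BB G x u k, (((MM G u k).filter (fun v => ¬ G.Adj b v)).card : ℝ) ≤
        ((BB G x u k).card : ℝ) * (5100 * (k : ℝ) ^ 4) := by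
      rw [← nsmul_eq_mul, ← Finset.sum_const]
      exact Finset.sum_le_sum fun b hb => h.nonadj_card hb
    have a4 : (((W0 G x u).filter (fun v => 1 ≤ dg G (NN G u) v + dg G (WW G u) v)).card : ℝ) ≤
        20 * (k : ℝ) ^ 2 := by
      calc (((W0 G x u).filter (fun v => 1 ≤ dg G (NN G u) v + dg G (WW G u) v)).card : ℝ)
          = ∑ v ∈ (W0 G x u).filter (fun v => 1 ≤ dg G (NN G u) v + dg G (WW G u) v), (1 : ℝ) := by
            simp
        _ ≤ ∑ v ∈ (W0 G x u).filter (fun v => 1 ≤ dg G (NN G u) v + dg G (WW G u) v),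
              (dg G (NN G u) v + dg G (WW G u) v) :=
            Finset.sum_le_sum fun v hv => (Finset.mem_filter.1 hv).2
        _ ≤ ∑ v ∈ W0 G x u, (dg G (NN G u) v + dg G (WW G u) v) :=
            Finset.sum_le_sum_of_subset_of_nonneg (Finset.filter_subset _ _)
              fun v _ _ => add_nonneg (dg_nonneg G _ _) (dg_nonneg G _ _)
        _ = ∑ v ∈ W0 G x u, dg G (NN G u) v + ∑ v ∈ W0 G x u, dg G (WW G u) v :=
            Finset.sum_add_distrib
        _ ≤ 10 * (k : ℝ) ^ 2 + 10 * (k : ℝ) ^ 2 := by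
            have b1 := h.W0_deg
            have b2 : ∑ v ∈ W0 G x u, dg G (WW G u) v ≤ ∑ v ∈ WW G u, dg G (WW G u) v :=
              Finset.sum_le_sum_of_subset_of_nonneg W0_sub fun v _ _ => dg_nonneg G _ _
            have b3 := h.P4
            linarith
        _ = _ := by ring
    linarith
  have h2 := h.card_BB_le
  have h3 : ((BB G x u k).card : ℝ) * (5100 * (k : ℝ) ^ 4) ≤
      (92 * (k : ℝ) ^ 2) * (5100 * (k : ℝ) ^ 4) := by gcongr
  have h4 : (92 * (k : ℝ) ^ 2) * (5100 * (k : ℝ) ^ 4) = 469200 * (k : ℝ) ^ 6 := by ring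
  have h5 : (k : ℝ) ^ 2 ≤ (k : ℝ) ^ 6 := pow_le_pow_right₀ (by linarith) (by norm_num)
  linarith

end Pool.Agent.F3
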