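import Pool.Agent.Hhelper34.F3.Core3

set_option linter.unusedSectionVars false
set_option linter.unusedVariables false

namespace Pool.Agent.F3
open SimpleGraph Finset

universe u

variable {V : Type u} [Fintype V] [DecidableEq V] {G : SimpleGraph V} [DecidableRel G.Adj]
variable {x : V → ℝ} {lm : ℝ} {u : V} {k : ℕ}

lemma Ctx.sumX (h : Ctx G x lm u k) :
    (lm - ((k : ℝ) - 1)) * ∑ b ∈ BB G x u k, x b =
      ∑ v ∈ II G x u k, dg G (BB G x u k) v * x v := by
  have e1 : lm * ∑ b ∈ BB G x u k, x b =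
      ∑ b ∈ BB G x u k, nb G x (BB G x u k) b + ∑ b ∈ BB G x u k, nb G x (II G x u k) b := by
    rw [Finset.mul_sum, ← Finset.sum_add_distrib]
    refine Finset.sum_congr rfl fun b _ => ?_
    rw [h.heig b, nb_BI (x := x) (u := u) (k := k)]
  have e2 : ∑ b ∈ BB G x u k, nb G x (BB G x u k) b = ((k : ℝ) - 1) * ∑ b ∈ BB G x u k, x b := by
    rw [nb_swap, Finset.mul_sum]
    exact Finset.sum_congr rfl fun b hb => by rw [h.dgBB hb]
  have e3 : ∑ b ∈ BB G x u k, nb G x (II G x u k) b =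
      ∑ v ∈ II G x u k, dg G (BB G x u k) v * x v := nb_swap G x _ _
  rw [e2, e3] at e1
  linarith

/-- The main analytic conclusion. -/
lemma Ctx.final (h : Ctx G x lm u k) :
    lm ^ 2 - ((k : ℝ) - 1) * lm ≤
      (∑ v ∈ II G x u k, dg G (BB G x u k) v ^ 2) / ((BB G x u k).card : ℝ) + 1 / (4 * (k : ℝ)) := by
  classical
  have hk3 := h.k3
  have hlm := h.lmpos
  have hs1 : (k : ℝ) ≤ ((BB G x u k).card : ℝ) := by exact_mod_cast h.card_BB_ge
  have hs2 := h.card_BB_le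
  set s : ℝ := ((BB G x u k).card : ℝ) with hs
  have hspos : 0 < s := by linarith
  set X : ℝ := ∑ b ∈ BB G x u k, x b with hX
  set q : V → ℝ := fun v => dg G (BB G x u k) v with hq
  set e0 : ℝ := 2040 * (k : ℝ) ^ 4 / lm ^ 2 with he0
  have he0n : 0 ≤ e0 := by positivity
  have hXlow : s * (1 - e0) ≤ X := by
    rw [hs, hX, ← nsmul_eq_mul, ← Finset.sum_const]
    exact Finset.sum_le_sum fun b hb => h.close' hb
  have hXup : X ≤ s := by
    rw [hs, hX]
    calc ∑ b ∈ BB G x u k, x b ≤ ∑ b ∈ BB G x u k, (1 : ℝ) :=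
          Finset.sum_le_sum fun v _ => h.hx1 v
      _ = _ := by simp
  have hq0 : ∀ v, 0 ≤ q v := fun v => dg_nonneg G _ _
  have hqs : ∀ v, q v ≤ s := fun v => dg_le_card G _ _
  -- (lm^2 - (k-1) lm) X
  have e1 : (lm ^ 2 - ((k : ℝ) - 1) * lm) * X =
      ∑ v ∈ II G x u k, q v * nb G x (BB G x u k) v +
        ∑ v ∈ II G x u k, q v * nb G x (II G x u k) v := by
    have a1 := h.sumX
    have a2 : (lm ^ 2 - ((k : ℝ) - 1) * lm) * X = lm * ((lm - ((k : ℝ) - 1)) * X) := by ring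
    rw [a2, a1, Finset.mul_sum, ← Finset.sum_add_distrib]
    refine Finset.sum_congr rfl fun v _ => ?_
    have a3 : lm * (q v * x v) = q v * (lm * x v) := by ring
    change lm * (q v * x v) = _
    rw [a3, h.heig v, nb_BI (x := x) (u := u) (k := k)]
    ring
  -- first sum
  set J := (II G x u k).filter (fun v => 0 < dg G (BB G x u k) v ∧
      dg G (BB G x u k) v < ((BB G x u k).card : ℝ)) with hJ
  have e2 : ∀ v ∈ II G x u k, q v * nb G x (BB G x u k) v ≤
      q v ^ 2 / s * X + (if (0 < q v ∧ q v < s) then s ^ 2 * e0 else 0) := by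
    intro v _
    have hq0v := hq0 v
    have hqsv := hqs v
    split_ifs with hc
    · -- intermediate
      have b1 : nb G x (BB G x u k) v ≤ q v := nb_le_dg G h.hx1 _ _
      have b2 : q v * nb G x (BB G x u k) v ≤ q v ^ 2 := by nlinarith
      have b3 : 1 ≤ X / s + e0 := by
        rw [← sub_le_iff_le_add, le_div_iff₀ hspos]
        linarith
      have b4 : q v ^ 2 * 1 ≤ q v ^ 2 * (X / s + e0) := by gcongr
      have b5 : q v ^ 2 * e0 ≤ s ^ 2 * e0 := by gcongr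
      have b6 : q v ^ 2 * (X / s + e0) = q v ^ 2 / s * X + q v ^ 2 * e0 := by
        field_simp
      linarith
    · rw [add_zero]
      rcases eq_or_lt_of_le hq0v with h0 | h0
      · rw [← h0]; simp
      · have hfull : q v = s := by
          by_contra hne
          exact hc ⟨h0, lt_of_le_of_ne hqsv hne⟩
        have hnb : nb G x (BB G x u k) v ≤ X := nb_le_sum G h.hx0 _ _
        rw [hfull]
        have : s ^ 2 / s * X = s * X := by field_simp
        rw [this]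
        gcongr
  have e3 : ∑ v ∈ II G x u k, q v * nb G x (BB G x u k) v ≤
      (∑ v ∈ II G x u k, q v ^ 2) / s * X + (J.card : ℝ) * (s ^ 2 * e0) := by
    refine (Finset.sum_le_sum e2).trans ?_
    rw [Finset.sum_add_distrib, ← Finset.sum_mul, ← Finset.sum_div, ← Finset.sum_filter,
      Finset.sum_const, nsmul_eq_mul]
  -- second sum
  have e4 : ∑ v ∈ II G x u k, q v * nb G x (II G x u k) v ≤
      s * (102 * (k : ℝ) ^ 2 / lm) * (38 * (k : ℝ) ^ 2) := by
    have b1 : ∀ v ∈ II G x u k, q v * nb G x (II G x u k) v ≤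
        s * (102 * (k : ℝ) ^ 2 / lm) * dg G (II G x u k) v := by
      intro v _
      have c1 : nb G x (II G x u k) v ≤ dg G (II G x u k) v * (102 * (k : ℝ) ^ 2 / lm) :=
        nb_le_dg_mul G (fun v hv => h.xII hv) v
      have c2 := hq0 v
      have c3 := hqs v
      have c4 := nb_nonneg G h.hx0 (II G x u k) v
      calc q v * nb G x (II G x u k) v ≤ s * (dg G (II G x u k) v * (102 * (k : ℝ) ^ 2 / lm)) := by
            gcongr
        _ = _ := by ring
    refine (Finset.sum_le_sum b1).trans ?_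
    rw [← Finset.mul_sum]
    have b2 := h.sum_dgII
    gcongr
  -- combine
  have hJc := h.card_mid
  have hb7 := h.hbig
  have hk0 : (0 : ℝ) < k := by linarith
  have e5 : (J.card : ℝ) * (s ^ 2 * e0) ≤ s * (1 / (16 * (k : ℝ))) := by
    have b1 : s * e0 ≤ (92 * (k : ℝ) ^ 2) * e0 := by gcongr
    have b2 : (J.card : ℝ) * (s * e0) ≤ (470000 * (k : ℝ) ^ 6) * ((92 * (k : ℝ) ^ 2) * e0) := by
      gcongr
    have b3 : (470000 * (k : ℝ) ^ 6) * ((92 * (k : ℝ) ^ 2) * e0) ≤ 1 / (16 * (k : ℝ)) := by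
      rw [he0]
      have c1 : (470000 * (k : ℝ) ^ 6) * ((92 * (k : ℝ) ^ 2) * (2040 * (k : ℝ) ^ 4 / lm ^ 2)) =
          88209600000 * (k : ℝ) ^ 12 / lm ^ 2 := by
        field_simp
        ring
      rw [c1, div_le_div_iff₀ (by positivity) (by positivity)]
      have c2 : (10 ^ 7 * (k : ℝ) ^ 7) ^ 2 ≤ lm ^ 2 := by gcongr
      have c3 : (10 ^ 7 * (k : ℝ) ^ 7) ^ 2 = 10 ^ 14 * (k : ℝ) ^ 13 * k := by ring
      have c4 : (k : ℝ) ^ 13 * 1 ≤ (k : ℝ) ^ 13 * k := by gcongr; linarith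
      have c5 : 88209600000 * (k : ℝ) ^ 12 * (16 * (k : ℝ)) = 1411353600000 * (k : ℝ) ^ 13 := by
        ring
      rw [c5, one_mul]
      have c6 : (0 : ℝ) < (k : ℝ) ^ 13 := by positivity
      nlinarith
    calc (J.card : ℝ) * (s ^ 2 * e0) = s * ((J.card : ℝ) * (s * e0)) := by ring
      _ ≤ s * (1 / (16 * (k : ℝ))) := by
          apply mul_le_mul_of_nonneg_left (b2.trans b3) hspos.le
  have e6 : s * (102 * (k : ℝ) ^ 2 / lm) * (38 * (k : ℝ) ^ 2) ≤ s * (1 / (16 * (k : ℝ))) := by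
    have b1 : (102 * (k : ℝ) ^ 2 / lm) * (38 * (k : ℝ) ^ 2) ≤ 1 / (16 * (k : ℝ)) := by
      have c1 : (102 * (k : ℝ) ^ 2 / lm) * (38 * (k : ℝ) ^ 2) = 3876 * (k : ℝ) ^ 4 / lm := by
        field_simp
        ring
      rw [c1, div_le_div_iff₀ hlm (by positivity)]
      have c2 := h.big (j := 5) (by norm_num)
      have c3 : 3876 * (k : ℝ) ^ 4 * (16 * (k : ℝ)) = 62016 * (k : ℝ) ^ 5 := by ring
      rw [c3, one_mul]
      have c4 : (0 : ℝ) < (k : ℝ) ^ 5 := by positivity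
      linarith
    calc s * (102 * (k : ℝ) ^ 2 / lm) * (38 * (k : ℝ) ^ 2) =
        s * ((102 * (k : ℝ) ^ 2 / lm) * (38 * (k : ℝ) ^ 2)) := by ring
      _ ≤ _ := by gcongr
  have e7 : (lm ^ 2 - ((k : ℝ) - 1) * lm - (∑ v ∈ II G x u k, q v ^ 2) / s) * X ≤
      s * (1 / (8 * (k : ℝ))) := by
    have : s * (1 / (8 * (k : ℝ))) = s * (1 / (16 * (k : ℝ))) + s * (1 / (16 * (k : ℝ))) := by
      field_simp; ring
    rw [this, sub_mul, e1]
    linarith
  have hXhalf : s / 2 ≤ X := by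
    have : e0 ≤ 1 / 2 := by
      rw [he0, div_le_div_iff₀ (by positivity) (by norm_num)]
      have c2 : (10 ^ 7 * (k : ℝ) ^ 7) ^ 2 ≤ lm ^ 2 := by gcongr
      have c3 : (10 ^ 7 * (k : ℝ) ^ 7) ^ 2 = 10 ^ 14 * (k : ℝ) ^ 14 := by ring
      have c4 : (k : ℝ) ^ 4 ≤ (k : ℝ) ^ 14 := pow_le_pow_right₀ (by linarith) (by norm_num)
      have c5 : (0 : ℝ) ≤ (k : ℝ) ^ 4 := by positivity
      nlinarith
    nlinarith
  by_contra hcon
  push Not at hcon
  have e8 : 1 / (4 * (k : ℝ)) < lm ^ 2 - ((k : ℝ) - 1) * lm - (∑ v ∈ II G x u k, q v ^ 2) / s := by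
    change (∑ v ∈ II G x u k, q v ^ 2) / s + 1 / (4 * (k : ℝ)) <
      lm ^ 2 - ((k : ℝ) - 1) * lm at hcon
    linarith
  have e9 : s * (1 / (8 * (k : ℝ))) <
      (lm ^ 2 - ((k : ℝ) - 1) * lm - (∑ v ∈ II G x u k, q v ^ 2) / s) * X := by
    have c1 : s * (1 / (8 * (k : ℝ))) = (1 / (4 * (k : ℝ))) * (s / 2) := by
      field_simp; ring
    rw [c1]
    have c2 : (0 : ℝ) < 1 / (4 * (k : ℝ)) := by positivity
    have c3 : 0 < s / 2 := by linarith
    calc (1 / (4 * (k : ℝ))) * (s / 2) ≤ (1 / (4 * (k : ℝ))) * X := by gcongr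
      _ < _ := by
        apply mul_lt_mul_of_pos_right e8
        linarith
  linarith

/-- Output of the core argument in a clean form. -/
theorem Ctx.output (h : Ctx G x lm u k) :
    ∃ B : Finset V, k ≤ B.card ∧ (∀ b ∈ B, (B.filter (G.Adj b)).card = k - 1) ∧
      lm ^ 2 - ((k : ℝ) - 1) * lm ≤
        (∑ v ∈ Bᶜ, dg G B v ^ 2) / (B.card : ℝ) + 1 / (4 * (k : ℝ)) := by
  refine ⟨BB G x u k, h.card_BB_ge, fun b hb => h.degBB hb, ?_⟩
  rw [compl_BB]
  exact h.final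

end Pool.Agent.F3
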