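import Mathlib

/-! Definitions for the friendship-graph spectral Turan problem (size version). -/

namespace Pool.Agent.F3

open SimpleGraph

universe u v

open Classical in
/-- The spectral radius of a finite graph: the largest eigenvalue of its adjacency matrix,
i.e. the supremum of the (finite) real spectrum of the adjacency matrix. -/
noncomputable def lam {V : Type u} [Fintype V] (G : SimpleGraph V) : ℝ :=
  sSup (spectrum ℝ (G.adjMatrix ℝ))

/-- The join of two graphs: the disjoint union plus all edges between the two parts. -/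
def join {V : Type u} {W : Type v} (G : SimpleGraph V) (H : SimpleGraph W) :
    SimpleGraph (V ⊕ W) :=
  SimpleGraph.sum G H ⊔ completeBipartiteGraph V W

/-- The graph `k K_2`: a matching with `k` edges, on `Fin k × Fin 2`. -/
def kK2 (k : ℕ) : SimpleGraph (Fin k × Fin 2) where
  Adj p q := p.1 = q.1 ∧ p.2 ≠ q.2
  symm := ⟨fun _ _ h => ⟨h.1.symm, h.2.symm⟩⟩
  loopless := ⟨fun _ h => h.2 rfl⟩

/-- The friendship graph `F_{k,3} = K_1 ∨ k K_2`. -/
def friendship (k : ℕ) : SimpleGraph (Fin 1 ⊕ (Fin k × Fin 2)) :=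
  join (⊤ : SimpleGraph (Fin 1)) (kK2 k)

/-- The graph `S^{1,l}_{n,k} = K_l ∨ ((K_{k-l} ∨ (n-k-1) K_1) ∪ K_1)`. -/
def Sgraph (n k l : ℕ) :
    SimpleGraph (Fin l ⊕ ((Fin (k - l) ⊕ Fin (n - k - 1)) ⊕ Fin 1)) :=
  join (⊤ : SimpleGraph (Fin l))
    (SimpleGraph.sum
      (join (⊤ : SimpleGraph (Fin (k - l))) (⊥ : SimpleGraph (Fin (n - k - 1))))
      (⊥ : SimpleGraph (Fin 1)))

/-- The class of `F_{k,3}`-free graphs with exactly `m` edges and no isolated vertices. -/
def InClass (m k : ℕ) {V : Type u} (G : SimpleGraph V) : Prop :=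
  (friendship k).Free G ∧ G.edgeSet.ncard = m ∧ ∀ v, ∃ w, G.Adj v w

end Pool.Agent.F3
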