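import Pool.Agent.Hhelper34.F3.Core1

set_option linter.unusedSectionVars false
set_option linter.unusedVariables false

namespace Pool.Agent.F3
open SimpleGraph Finset

universe u v

section joinlemmas
variable {V : Type u} {W : Type v} (G : SimpleGraph V) (H : SimpleGraph W)

@[simp] lemma join_ll (a b : V) : (join G H).Adj (Sum.inl a) (Sum.inl b) ↔ G.Adj a b := by
  simp [join]

@[simp] lemma join_rr (a b : W) : (join G H).Adj (Sum.inr a) (Sum.inr b) ↔ H.Adj a b := by
  simp [join]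

@[simp] lemma join_lr (a : V) (b : W) : (join G H).Adj (Sum.inl a) (Sum.inr b) := by
  simp [join]

@[simp] lemma join_rl (a : V) (b : W) : (join G H).Adj (Sum.inr b) (Sum.inl a) := by
  simp [join]

end joinlemmas

section S
variable (n k l : ℕ)

/-- vertex names of the graph `S` -/
abbrev SV (n k l : ℕ) : Type := Fin l ⊕ ((Fin (k - l) ⊕ Fin (n - k - 1)) ⊕ Fin 1)

lemma S_ll (a b : Fin l) : (Sgraph n k l).Adj (Sum.inl a) (Sum.inl b) ↔ a ≠ b := by
  simp [Sgraph]
lemma S_lr (a : Fin l) (b) : (Sgraph n k l).Adj (Sum.inl a) (Sum.inr b) := by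
  simp [Sgraph]
lemma S_rl (a : Fin l) (b) : (Sgraph n k l).Adj (Sum.inr b) (Sum.inl a) := by
  simp [Sgraph]
lemma S_mm (a b : Fin (k - l)) :
    (Sgraph n k l).Adj (Sum.inr (Sum.inl (Sum.inl a))) (Sum.inr (Sum.inl (Sum.inl b))) ↔ a ≠ b := by
  simp [Sgraph]
lemma S_mt (a : Fin (k - l)) (b : Fin (n - k - 1)) :
    (Sgraph n k l).Adj (Sum.inr (Sum.inl (Sum.inl a))) (Sum.inr (Sum.inl (Sum.inr b))) := by
  simp [Sgraph]
lemma S_tm (a : Fin (k - l)) (b : Fin (n - k - 1)) :
    (Sgraph n k l).Adj (Sum.inr (Sum.inl (Sum.inr b))) (Sum.inr (Sum.inl (Sum.inl a))) := by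
  simp [Sgraph]
lemma S_tt (a b : Fin (n - k - 1)) :
    ¬ (Sgraph n k l).Adj (Sum.inr (Sum.inl (Sum.inr a))) (Sum.inr (Sum.inl (Sum.inr b))) := by
  simp [Sgraph]
lemma S_wr (a) (b : Fin 1) : ¬ (Sgraph n k l).Adj (Sum.inr (Sum.inl a)) (Sum.inr (Sum.inr b)) := by
  simp [Sgraph]
lemma S_rw (a) (b : Fin 1) : ¬ (Sgraph n k l).Adj (Sum.inr (Sum.inr b)) (Sum.inr (Sum.inl a)) := by
  simp [Sgraph]
lemma S_ww (a b : Fin 1) : ¬ (Sgraph n k l).Adj (Sum.inr (Sum.inr b)) (Sum.inr (Sum.inr a)) := by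
  simp [Sgraph]

end S

variable {V : Type u} [Fintype V] [DecidableEq V] {G : SimpleGraph V} [DecidableRel G.Adj]

/-- The explicit structure gives an isomorphism with the graph `S`. -/
theorem iso_of_structure {k l : ℕ} (B : Finset V) (w : V) (hw : w ∉ B) (hB : B.card = k)
    (hcl : ∀ b ∈ B, ∀ b' ∈ B, b ≠ b' → G.Adj b b')
    (hind : ∀ v, v ∉ B → ∀ v', v' ∉ B → ¬ G.Adj v v') (hl : (B.filter (G.Adj w)).card = l)
    (hfull : ∀ v, v ∉ B → v ≠ w → ∀ b ∈ B, G.Adj v b) :
    Nonempty (Sgraph (Fintype.card V) k l ≃g G) := by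
  classical
  set B1 := B.filter (G.Adj w) with hB1
  set B2 := B.filter (fun b => ¬ G.Adj w b) with hB2
  set T := Bᶜ.erase w with hT
  have hB2c : B2.card = k - l := by
    have := Finset.card_filter_add_card_filter_not (s := B) (fun b => G.Adj w b)
    rw [← hB1, ← hB2] at this
    omega
  have hTc : T.card = Fintype.card V - k - 1 := by
    rw [hT, Finset.card_erase_of_mem (Finset.mem_compl.2 hw), Finset.card_compl, hB]
  have e1 : Fin l ≃ B1 := (Fintype.equivFinOfCardEq (by simp [hl])).symm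
  have e2 : Fin (k - l) ≃ B2 := (Fintype.equivFinOfCardEq (by simp [hB2c])).symm
  have e3 : Fin (Fintype.card V - k - 1) ≃ T := (Fintype.equivFinOfCardEq (by simp [hTc])).symm
  let f : SV (Fintype.card V) k l → V :=
    Sum.elim (fun i => (e1 i : V)) (Sum.elim (Sum.elim (fun i => (e2 i : V)) (fun i => (e3 i : V)))
      (fun _ => w))
  have m1 : ∀ i, (e1 i : V) ∈ B ∧ G.Adj w (e1 i : V) := fun i => Finset.mem_filter.1 (e1 i).2
  have m2 : ∀ i, (e2 i : V) ∈ B ∧ ¬ G.Adj w (e2 i : V) := fun i => Finset.mem_filter.1 (e2 i).2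
  have m3 : ∀ i, (e3 i : V) ≠ w ∧ (e3 i : V) ∉ B := fun i =>
    ⟨Finset.ne_of_mem_erase (e3 i).2, Finset.mem_compl.1 (Finset.mem_of_mem_erase (e3 i).2)⟩
  have hinj : Function.Injective f := by
    rintro (a | ((a | a) | a)) (b | ((b | b) | b)) hab
    · have : (e1 a : V) = e1 b := hab
      rw [e1.injective (Subtype.ext this)]
    · exfalso
      have h : (e1 a : V) = e2 b := hab
      have h1 := (m1 a).2
      rw [h] at h1
      exact (m2 b).2 h1
    · exfalso
      have h : (e1 a : V) = e3 b := hab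
      exact (m3 b).2 (h ▸ (m1 a).1)
    · exfalso
      have h : (e1 a : V) = w := hab
      exact hw (h ▸ (m1 a).1)
    · exfalso
      have h : (e2 a : V) = e1 b := hab
      have h1 := (m1 b).2
      rw [← h] at h1
      exact (m2 a).2 h1
    · have : (e2 a : V) = e2 b := hab
      rw [e2.injective (Subtype.ext this)]
    · exfalso
      have h : (e2 a : V) = e3 b := hab
      exact (m3 b).2 (h ▸ (m2 a).1)
    · exfalso
      have h : (e2 a : V) = w := hab
      exact hw (h ▸ (m2 a).1)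
    · exfalso
      have h : (e3 a : V) = e1 b := hab
      exact (m3 a).2 (h ▸ (m1 b).1)
    · exfalso
      have h : (e3 a : V) = e2 b := hab
      exact (m3 a).2 (h ▸ (m2 b).1)
    · have : (e3 a : V) = e3 b := hab
      rw [e3.injective (Subtype.ext this)]
    · exfalso
      have h : (e3 a : V) = w := hab
      exact (m3 a).1 h
    · exfalso
      have h : w = (e1 b : V) := hab
      exact hw (h ▸ (m1 b).1)
    · exfalso
      have h : w = (e2 b : V) := hab
      exact hw (h ▸ (m2 b).1)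
    · exfalso
      have h : w = (e3 b : V) := hab
      exact (m3 b).1 h.symm
    · rw [Fin.eq_zero a, Fin.eq_zero b]
  have hsurj : Function.Surjective f := by
    intro v
    by_cases hvw : v = w
    · exact ⟨Sum.inr (Sum.inr 0), hvw.symm⟩
    · by_cases hvB : v ∈ B
      · by_cases hadj : G.Adj w v
        · refine ⟨Sum.inl (e1.symm ⟨v, Finset.mem_filter.2 ⟨hvB, hadj⟩⟩), ?_⟩
          change ((e1 (e1.symm _) : B1) : V) = v
          rw [Equiv.apply_symm_apply]
        · refine ⟨Sum.inr (Sum.inl (Sum.inl (e2.symm ⟨v, Finset.mem_filter.2 ⟨hvB, hadj⟩⟩))), ?_⟩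
          change ((e2 (e2.symm _) : B2) : V) = v
          rw [Equiv.apply_symm_apply]
      · refine ⟨Sum.inr (Sum.inl (Sum.inr (e3.symm ⟨v, ?_⟩))), ?_⟩
        · rw [hT, Finset.mem_erase, Finset.mem_compl]
          exact ⟨hvw, hvB⟩
        · change ((e3 (e3.symm _) : T) : V) = v
          rw [Equiv.apply_symm_apply]
  have hne : ∀ {a b : SV (Fintype.card V) k l}, a ≠ b → f a ≠ f b := fun h h' => h (hinj h')
  suffices key : ∀ a b, G.Adj (f a) (f b) ↔ (Sgraph (Fintype.card V) k l).Adj a b from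
    ⟨⟨Equiv.ofBijective f ⟨hinj, hsurj⟩, fun {a b} => key a b⟩⟩
  rintro (a | ((a | a) | a)) (b | ((b | b) | b))
  · rw [S_ll]
    constructor
    · rintro h rfl
      exact G.loopless.irrefl _ h
    · intro h
      exact hcl _ (m1 a).1 _ (m1 b).1 (hne (a := Sum.inl a) (b := Sum.inl b) (by simpa using h))
  · refine iff_of_true ?_ (S_lr _ _ _ _ _)
    exact hcl _ (m1 a).1 _ (m2 b).1 (hne (a := Sum.inl a) (b := Sum.inr (Sum.inl (Sum.inl b))) (by simp))
  · refine iff_of_true ?_ (S_lr _ _ _ _ _)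
    exact (hfull _ (m3 b).2 (m3 b).1 _ (m1 a).1).symm
  · refine iff_of_true ?_ (S_lr _ _ _ _ _)
    exact (m1 a).2.symm
  · refine iff_of_true ?_ (S_rl _ _ _ _ _)
    exact hcl _ (m2 a).1 _ (m1 b).1 (hne (a := Sum.inr (Sum.inl (Sum.inl a))) (b := Sum.inl b) (by simp))
  · rw [S_mm]
    constructor
    · rintro h rfl
      exact G.loopless.irrefl _ h
    · intro h
      exact hcl _ (m2 a).1 _ (m2 b).1 (hne (a := Sum.inr (Sum.inl (Sum.inl a)))
        (b := Sum.inr (Sum.inl (Sum.inl b))) (by simpa using h))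
  · refine iff_of_true ?_ (S_mt _ _ _ _ _)
    exact (hfull _ (m3 b).2 (m3 b).1 _ (m2 a).1).symm
  · refine iff_of_false ?_ (S_wr _ _ _ _ _)
    exact fun h => (m2 a).2 h.symm
  · refine iff_of_true ?_ (S_rl _ _ _ _ _)
    exact hfull _ (m3 a).2 (m3 a).1 _ (m1 b).1
  · refine iff_of_true ?_ (S_tm _ _ _ _ _)
    exact hfull _ (m3 a).2 (m3 a).1 _ (m2 b).1
  · refine iff_of_false ?_ (S_tt _ _ _ _ _)
    exact hind _ (m3 a).2 _ (m3 b).2
  · refine iff_of_false ?_ (S_wr _ _ _ _ _)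
    exact hind _ (m3 a).2 _ hw
  · refine iff_of_true ?_ (S_rl _ _ _ _ _)
    exact (m1 b).2
  · refine iff_of_false ?_ (S_rw _ _ _ _ _)
    exact (m2 b).2
  · refine iff_of_false ?_ (S_rw _ _ _ _ _)
    exact hind _ hw _ (m3 b).2
  · refine iff_of_false ?_ (S_ww _ _ _ _ _)
    exact hind _ hw _ hw

end Pool.Agent.F3
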