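import Pool.Agent.Hhelper34.F3.Core1

set_option linter.unusedSectionVars false
set_option linter.unusedVariables false

namespace Pool.Agent.F3
open SimpleGraph Finset

universe u

variable {V : Type u} [Fintype V] [DecidableEq V] (G : SimpleGraph V) [DecidableRel G.Adj]

/-- the quadratic form of the adjacency matrix -/
noncomputable def QF (y : V → ℝ) : ℝ := ∑ v, y v * ∑ w, ad G v w * y w

/-- the bilinear form -/
noncomputable def BF (y z : V → ℝ) : ℝ := ∑ v, y v * ∑ w, ad G v w * z w

lemma BF_comm (y z : V → ℝ) : BF G y z = BF G z y := by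
  unfold BF
  simp_rw [Finset.mul_sum]
  rw [Finset.sum_comm]
  refine Finset.sum_congr rfl fun w _ => Finset.sum_congr rfl fun v _ => ?_
  rw [ad_comm]; ring

lemma QF_add (y z : V → ℝ) (t : ℝ) :
    QF G (fun v => y v + t * z v) = QF G y + 2 * t * BF G z y + t ^ 2 * QF G z := by
  have h1 : QF G (fun v => y v + t * z v) = BF G y y + t * BF G y z + t * BF G z y +
      t ^ 2 * BF G z z := by
    unfold QF BF
    simp_rw [Finset.mul_sum]
    simp_rw [← Finset.sum_add_distrib]
    refine Finset.sum_congr rfl fun w _ => Finset.sum_congr rfl fun v _ => ?_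
    ring
  rw [h1, BF_comm G y z]
  unfold QF BF
  ring

/-- There is a nonnegative maximiser of the quadratic form on the sphere. -/
lemma exists_max [Nonempty V] : ∃ x : V → ℝ, (∀ v, 0 ≤ x v) ∧ ∑ v, x v ^ 2 = 1 ∧
    ∀ y : V → ℝ, QF G y ≤ QF G x * ∑ v, y v ^ 2 := by
  have hcont : Continuous (QF G) := by
    unfold QF
    fun_prop
  let S : Set (V → ℝ) := {y | ∑ v, y v ^ 2 = 1}
  have hSclosed : IsClosed S := by
    apply isClosed_eq
    · fun_prop
    · fun_prop
  have hSsub : S ⊆ Set.pi Set.univ (fun _ : V => Set.Icc (-1 : ℝ) 1) := by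
    intro y hy v _
    have h1 : y v ^ 2 ≤ 1 := by
      have : y v ^ 2 ≤ ∑ v, y v ^ 2 :=
        Finset.single_le_sum (f := fun v => y v ^ 2) (fun v _ => sq_nonneg _) (Finset.mem_univ v)
      have hy' : ∑ v, y v ^ 2 = 1 := hy
      linarith
    exact abs_le.1 (by
      rw [← sq_abs] at h1
      have := abs_nonneg (y v)
      nlinarith)
  have hScomp : IsCompact S :=
    (isCompact_univ_pi fun _ => isCompact_Icc).of_isClosed_subset hSclosed hSsub
  have hSne : S.Nonempty := by
    obtain ⟨v0⟩ := ‹Nonempty V›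
    refine ⟨fun v => if v = v0 then 1 else 0, ?_⟩
    change ∑ v, (if v = v0 then (1 : ℝ) else 0) ^ 2 = 1
    simp
  obtain ⟨x0, hx0S, hx0⟩ := hScomp.exists_isMaxOn hSne hcont.continuousOn
  have hx0S' : ∑ v, x0 v ^ 2 = 1 := hx0S
  refine ⟨fun v => |x0 v|, fun v => abs_nonneg _, ?_, ?_⟩
  · simpa using hx0S'
  · intro y
    have h1 : QF G x0 ≤ QF G (fun v => |x0 v|) := by
      unfold QF
      simp_rw [Finset.mul_sum]
      refine Finset.sum_le_sum fun v _ => Finset.sum_le_sum fun w _ => ?_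
      have h2 := ad_nonneg G v w
      have h3 : x0 v * x0 w ≤ |x0 v| * |x0 w| := by
        rw [← abs_mul]; exact le_abs_self _
      nlinarith
    rcases eq_or_lt_of_le (Finset.sum_nonneg (s := univ) fun (v : V) _ => sq_nonneg (y v))
      with h0 | h0
    · -- y = 0
      have hy0 : ∀ v, y v = 0 := by
        intro v
        have := (Finset.sum_eq_zero_iff_of_nonneg (s := univ)
          fun (v : V) _ => sq_nonneg (y v)).1 h0.symm v (Finset.mem_univ v)
        exact pow_eq_zero_iff (n := 2) (by norm_num) |>.1 this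
      rw [← h0]
      unfold QF
      simp [hy0]
    · set r : ℝ := Real.sqrt (∑ v, y v ^ 2) with hr
      have hrpos : 0 < r := Real.sqrt_pos.2 h0
      have hr2 : r ^ 2 = ∑ v, y v ^ 2 := Real.sq_sqrt h0.le
      have hzS : (fun v => y v / r) ∈ S := by
        change ∑ v, (y v / r) ^ 2 = 1
        simp_rw [div_pow]
        rw [← Finset.sum_div, hr2, div_self h0.ne']
      have h2 : QF G (fun v => y v / r) ≤ QF G x0 := hx0 hzS
      have h3 : QF G (fun v => y v / r) = QF G y / r ^ 2 := by
        unfold QF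
        simp_rw [Finset.mul_sum]
        rw [Finset.sum_div]
        refine Finset.sum_congr rfl fun v _ => ?_
        rw [Finset.sum_div]
        refine Finset.sum_congr rfl fun w _ => ?_
        field_simp
      rw [h3, div_le_iff₀ (by positivity), hr2] at h2
      calc QF G y ≤ QF G x0 * ∑ v, y v ^ 2 := h2
        _ ≤ _ := by gcongr

lemma eig_of_max {x : V → ℝ} (h1 : ∑ v, x v ^ 2 = 1)
    (h2 : ∀ y : V → ℝ, QF G y ≤ QF G x * ∑ v, y v ^ 2) :
    ∀ v, QF G x * x v = ∑ w, ad G v w * x w := by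
  set μ := QF G x with hμ
  set z : V → ℝ := fun v => ∑ w, ad G v w * x w - μ * x v with hz
  -- the first order condition
  have key : ∀ t : ℝ, 2 * t * ∑ v, z v ^ 2 ≤ t ^ 2 * (μ * ∑ v, z v ^ 2 - QF G z) := by
    intro t
    have h3 := h2 (fun v => x v + t * z v)
    rw [QF_add] at h3
    have h4 : ∑ v, (x v + t * z v) ^ 2 = 1 + 2 * t * ∑ v, z v * x v + t ^ 2 * ∑ v, z v ^ 2 := by
      rw [← h1, Finset.mul_sum, Finset.mul_sum, ← Finset.sum_add_distrib,
        ← Finset.sum_add_distrib]
      exact Finset.sum_congr rfl fun v _ => by ring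
    have h5 : ∑ v, z v ^ 2 = BF G z x - μ * ∑ v, z v * x v := by
      unfold BF
      rw [Finset.mul_sum, ← Finset.sum_sub_distrib]
      refine Finset.sum_congr rfl fun v _ => ?_
      have : z v = ∑ w, ad G v w * x w - μ * x v := rfl
      rw [sq]
      nth_rewrite 2 [this]
      ring
    rw [h4] at h3
    have h6 : 2 * t * ∑ v, z v ^ 2 = 2 * t * BF G z x - 2 * t * (μ * ∑ v, z v * x v) := by
      rw [h5]; ring
    nlinarith
  have hzero : ∑ v, z v ^ 2 = 0 := by
    by_contra hne
    have hpos : 0 < ∑ v, z v ^ 2 :=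
      lt_of_le_of_ne (Finset.sum_nonneg fun v _ => sq_nonneg _) (Ne.symm hne)
    set c := ∑ v, z v ^ 2 with hc
    set d := μ * c - QF G z with hd
    have hk := key (c / (|d| + 1))
    have hd1 : 0 < |d| + 1 := by positivity
    have h3 : (c / (|d| + 1)) ^ 2 * d ≤ (c / (|d| + 1)) ^ 2 * (|d| + 1) := by
      have : d ≤ |d| + 1 := by linarith [le_abs_self d]
      gcongr
    have h4 : (c / (|d| + 1)) ^ 2 * (|d| + 1) = c * (c / (|d| + 1)) := by
      field_simp
    have h5 : 0 < c * (c / (|d| + 1)) := by positivity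
    have h6 : 2 * (c / (|d| + 1)) * c = 2 * (c * (c / (|d| + 1))) := by ring
    linarith
  intro v
  have h3 := (Finset.sum_eq_zero_iff_of_nonneg (s := univ)
          fun (v : V) _ => sq_nonneg (z v)).1 hzero v (Finset.mem_univ v)
  have h4 : z v = 0 := pow_eq_zero_iff (n := 2) (by norm_num) |>.1 h3
  have h5 : z v = ∑ w, ad G v w * x w - μ * x v := rfl
  linarith

lemma mem_spectrum_iff (μ : ℝ) :
    μ ∈ spectrum ℝ (G.adjMatrix ℝ) ↔
      ∃ y : V → ℝ, y ≠ 0 ∧ ∀ v, μ * y v = ∑ w, ad G v w * y w := by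
  rw [← Matrix.spectrum_toLin', ← Module.End.hasEigenvalue_iff_mem_spectrum]
  have key : ∀ y : V → ℝ, ∀ v, (Matrix.toLin' (G.adjMatrix ℝ)) y v = ∑ w, ad G v w * y w := by
    intro y v
    rw [Matrix.toLin'_apply]
    unfold Matrix.mulVec dotProduct ad
    simp [SimpleGraph.adjMatrix_apply]
  constructor
  · intro h
    obtain ⟨y, hy⟩ := h.exists_hasEigenvector
    refine ⟨y, hy.2, fun v => ?_⟩
    have h1 := hy.apply_eq_smul
    rw [← key y v, h1]
    simp
  · rintro ⟨y, hy0, hy⟩
    refine Module.End.hasEigenvalue_of_hasEigenvector (x := y) ?_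
    rw [Module.End.hasEigenvector_iff]
    refine ⟨?_, hy0⟩
    rw [Module.End.mem_eigenspace_iff]
    ext v
    rw [key y v, ← hy v]
    simp

lemma lam_def {V : Type u} [Fintype V] [i1 : DecidableEq V] (G : SimpleGraph V)
    [i2 : DecidableRel G.Adj] : lam G = sSup (spectrum ℝ (G.adjMatrix ℝ)) := by
  have h1 : i1 = fun a b => Classical.propDecidable (a = b) := Subsingleton.elim _ _
  subst h1
  have h2 : i2 = fun a b => Classical.propDecidable (G.Adj a b) := Subsingleton.elim _ _
  subst h2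
  rfl

lemma lam_eq_of_max {x : V → ℝ} (h1 : ∑ v, x v ^ 2 = 1)
    (h2 : ∀ y : V → ℝ, QF G y ≤ QF G x * ∑ v, y v ^ 2) : lam G = QF G x := by
  rw [lam_def G]
  have heig := eig_of_max G h1 h2
  apply IsGreatest.csSup_eq
  refine ⟨?_, ?_⟩
  · rw [mem_spectrum_iff]
    refine ⟨x, ?_, heig⟩
    rintro rfl
    simp at h1
  · intro ν hν
    rw [mem_spectrum_iff] at hν
    obtain ⟨y, hy0, hy⟩ := hν
    have h3 := h2 y
    have h4 : QF G y = ν * ∑ v, y v ^ 2 := by
      unfold QF
      rw [Finset.mul_sum]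
      refine Finset.sum_congr rfl fun v _ => ?_
      rw [← hy v]; ring
    rw [h4] at h3
    have h5 : 0 < ∑ v, y v ^ 2 := by
      have hex : ∃ v, y v ≠ 0 := by
        by_contra hcon
        push Not at hcon
        exact hy0 (funext hcon)
      obtain ⟨v, hv⟩ := hex
      exact Finset.sum_pos' (fun v _ => sq_nonneg _) ⟨v, Finset.mem_univ v, by positivity⟩
    exact le_of_mul_le_mul_right h3 h5

/-- A nonnegative eigenvector for `lam G`, normalised to have maximum one. -/
theorem exists_perron [Nonempty V] : ∃ (x : V → ℝ) (u : V), (∀ v, 0 ≤ x v) ∧ (∀ v, x v ≤ 1) ∧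
    x u = 1 ∧ ∀ v, lam G * x v = ∑ w, ad G v w * x w := by
  obtain ⟨x, hx0, hx1, hx2⟩ := exists_max G
  have hl := lam_eq_of_max G hx1 hx2
  have heig := eig_of_max G hx1 hx2
  obtain ⟨u, -, hu⟩ := Finset.exists_max_image (univ : Finset V) x Finset.univ_nonempty
  have hupos : 0 < x u := by
    rcases eq_or_lt_of_le (hx0 u) with h | h
    · exfalso
      have : ∀ v, x v = 0 := fun v => le_antisymm (by rw [h]; exact hu v (Finset.mem_univ v)) (hx0 v)
      simp [this] at hx1
    · exact h
  refine ⟨fun v => x v / x u, u, fun v => div_nonneg (hx0 v) hupos.le, fun v => ?_, ?_, fun v => ?_⟩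
  · rw [div_le_one hupos]; exact hu v (Finset.mem_univ v)
  · exact div_self hupos.ne'
  · rw [hl]
    have := heig v
    calc QF G x * (x v / x u) = (QF G x * x v) / x u := by ring
      _ = (∑ w, ad G v w * x w) / x u := by rw [this]
      _ = _ := by rw [Finset.sum_div]; exact Finset.sum_congr rfl fun w _ => by ring

/-- Rayleigh bound. -/
theorem rayleigh [Nonempty V] (y : V → ℝ) : QF G y ≤ lam G * ∑ v, y v ^ 2 := by
  obtain ⟨x, hx0, hx1, hx2⟩ := exists_max G
  rw [lam_eq_of_max G hx1 hx2]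
  exact hx2 y

end Pool.Agent.F3
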