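import Pool.Agent.Hhelper34.F3.Iso
import Pool.Agent.Hhelper34.F3.Perron

set_option linter.unusedSectionVars false
set_option linter.unusedVariables false

namespace Pool.Agent.F3
open SimpleGraph Finset

universe u v

section general
variable {V : Type u} [Fintype V] [DecidableEq V] (G : SimpleGraph V) [DecidableRel G.Adj]

lemma edges_eq : 2 * (G.edgeSet.ncard : ℝ) = ∑ v, dg G univ v := by
  have h1 : G.edgeSet.ncard = G.edgeFinset.card := by
    rw [Set.ncard_eq_toFinset_card' G.edgeSet]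
    rfl
  have h2 := G.sum_degrees_eq_twice_card_edges
  have h3 : ∑ v, dg G univ v = ((∑ v, G.degree v : ℕ) : ℝ) := by
    push_cast
    refine Finset.sum_congr rfl fun v _ => ?_
    rw [dg_eq_card, ← SimpleGraph.card_neighborFinset_eq_degree]
    congr 2
    ext w
    simp
  rw [h3, h2, h1]
  push_cast
  ring

end general

lemma lam_iso {V : Type u} {W : Type v} [Fintype V] [Fintype W] (G : SimpleGraph V)
    (H : SimpleGraph W) (e : G ≃g H) : lam G = lam H := by
  classical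
  rw [lam_def G, lam_def H]
  congr 1
  ext μ
  rw [mem_spectrum_iff, mem_spectrum_iff]
  constructor
  · rintro ⟨y, hy0, hy⟩
    refine ⟨fun w => y (e.symm w), ?_, ?_⟩
    · intro h
      apply hy0
      funext v
      have := congrFun h (e v)
      simpa using this
    · intro w
      rw [hy (e.symm w)]
      refine Fintype.sum_equiv e.toEquiv _ _ fun v => ?_
      have : ad H w (e v) = ad G (e.symm w) v := by
        unfold ad
        have h2 : H.Adj w (e v) ↔ G.Adj (e.symm w) v := by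
          rw [← e.map_adj_iff]
          simp
        simp [h2]
      change _ = ad H w (e v) * y (e.symm (e v))
      rw [this]
      simp
  · rintro ⟨y, hy0, hy⟩
    refine ⟨fun w => y (e w), ?_, ?_⟩
    · intro h
      apply hy0
      funext v
      have := congrFun h (e.symm v)
      simpa using this
    · intro w
      rw [hy (e w)]
      refine Fintype.sum_equiv e.symm.toEquiv _ _ fun v => ?_
      have : ad G w (e.symm v) = ad H (e w) v := by
        unfold ad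
        have h2 : G.Adj w (e.symm v) ↔ H.Adj (e w) v := by
          rw [← e.map_adj_iff]
          simp
        simp [h2]
      change _ = ad G w (e.symm v) * y (e (e.symm v))
      rw [this]
      simp

section S
variable (n k l : ℕ)

/-- a vector constant on the parts -/
def yv (n k l : ℕ) (α β γ : ℝ) : SV n k l → ℝ :=
  Sum.elim (fun _ => α) (Sum.elim (Sum.elim (fun _ => α) (fun _ => β)) (fun _ => γ))

variable [DecidableRel (Sgraph n k l).Adj]

lemma row_l (α β γ : ℝ) (a : Fin l) (hlk : l ≤ k) :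
    ∑ w, ad (Sgraph n k l) (Sum.inl a) w * yv n k l α β γ w =
      ((k : ℝ) - 1) * α + ((n - k - 1 : ℕ) : ℝ) * β + γ := by
  rw [Fintype.sum_sum_type, Fintype.sum_sum_type, Fintype.sum_sum_type]
  have e1 : ∑ b : Fin l, ad (Sgraph n k l) (Sum.inl a) (Sum.inl b) * yv n k l α β γ (Sum.inl b) =
      ((l : ℝ) - 1) * α := by
    have : ∀ b : Fin l, ad (Sgraph n k l) (Sum.inl a) (Sum.inl b) * yv n k l α β γ (Sum.inl b) =
        α - (if a = b then α else 0) := by
      intro b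
      by_cases h : a = b
      · rw [ad_of_not _ (by rw [S_ll]; simpa using h)]; simp [h]
      · rw [ad_of_adj _ ((S_ll n k l a b).2 h)]; simp [h, yv]
    simp_rw [this]
    rw [Finset.sum_sub_distrib]
    simp
    ring
  have e2 : ∀ b, ad (Sgraph n k l) (Sum.inl a) (Sum.inr b) = 1 := fun b =>
    ad_of_adj _ (S_lr n k l a b)
  rw [e1]
  simp only [e2, one_mul]
  simp only [yv, Sum.elim_inr, Sum.elim_inl]
  rw [Finset.sum_const, Finset.sum_const, Finset.sum_const]
  simp only [Finset.card_univ, Fintype.card_fin, nsmul_eq_mul]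
  rw [Nat.cast_sub hlk]
  push_cast
  ring

lemma row_m (α β γ : ℝ) (a : Fin (k - l)) (hlk : l ≤ k) :
    ∑ w, ad (Sgraph n k l) (Sum.inr (Sum.inl (Sum.inl a))) w * yv n k l α β γ w =
      ((k : ℝ) - 1) * α + ((n - k - 1 : ℕ) : ℝ) * β := by
  rw [Fintype.sum_sum_type, Fintype.sum_sum_type, Fintype.sum_sum_type]
  have e1 : ∑ b : Fin (k - l), ad (Sgraph n k l) (Sum.inr (Sum.inl (Sum.inl a)))
      (Sum.inr (Sum.inl (Sum.inl b))) * yv n k l α β γ (Sum.inr (Sum.inl (Sum.inl b))) =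
      (((k - l : ℕ) : ℝ) - 1) * α := by
    have : ∀ b : Fin (k - l), ad (Sgraph n k l) (Sum.inr (Sum.inl (Sum.inl a)))
        (Sum.inr (Sum.inl (Sum.inl b))) * yv n k l α β γ (Sum.inr (Sum.inl (Sum.inl b))) =
        α - (if a = b then α else 0) := by
      intro b
      by_cases h : a = b
      · rw [ad_of_not _ (by rw [S_mm]; simpa using h)]; simp [h]
      · rw [ad_of_adj _ ((S_mm n k l a b).2 h)]; simp [h, yv]
    simp_rw [this]
    rw [Finset.sum_sub_distrib]
    simp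
    ring
  have e2 : ∀ b, ad (Sgraph n k l) (Sum.inr (Sum.inl (Sum.inl a))) (Sum.inl b) = 1 := fun b =>
    ad_of_adj _ (S_rl n k l b _)
  have e3 : ∀ b, ad (Sgraph n k l) (Sum.inr (Sum.inl (Sum.inl a))) (Sum.inr (Sum.inl (Sum.inr b))) = 1 :=
    fun b => ad_of_adj _ (S_mt n k l a b)
  have e4 : ∀ b, ad (Sgraph n k l) (Sum.inr (Sum.inl (Sum.inl a))) (Sum.inr (Sum.inr b)) = 0 :=
    fun b => ad_of_not _ (S_wr n k l _ b)
  rw [e1]
  simp only [e2, e3, e4, one_mul, zero_mul]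
  simp only [yv, Sum.elim_inr, Sum.elim_inl]
  rw [Finset.sum_const, Finset.sum_const, Finset.sum_const]
  simp only [Finset.card_univ, Fintype.card_fin, nsmul_eq_mul]
  rw [Nat.cast_sub hlk]
  push_cast
  ring

lemma row_t (α β γ : ℝ) (a : Fin (n - k - 1)) (hlk : l ≤ k) :
    ∑ w, ad (Sgraph n k l) (Sum.inr (Sum.inl (Sum.inr a))) w * yv n k l α β γ w =
      (k : ℝ) * α := by
  rw [Fintype.sum_sum_type, Fintype.sum_sum_type, Fintype.sum_sum_type]
  have e1 : ∀ b, ad (Sgraph n k l) (Sum.inr (Sum.inl (Sum.inr a))) (Sum.inl b) = 1 := fun b =>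
    ad_of_adj _ (S_rl n k l b _)
  have e2 : ∀ b, ad (Sgraph n k l) (Sum.inr (Sum.inl (Sum.inr a))) (Sum.inr (Sum.inl (Sum.inl b))) = 1 :=
    fun b => ad_of_adj _ (S_tm n k l b a)
  have e3 : ∀ b, ad (Sgraph n k l) (Sum.inr (Sum.inl (Sum.inr a))) (Sum.inr (Sum.inl (Sum.inr b))) = 0 :=
    fun b => ad_of_not _ (S_tt n k l a b)
  have e4 : ∀ b, ad (Sgraph n k l) (Sum.inr (Sum.inl (Sum.inr a))) (Sum.inr (Sum.inr b)) = 0 :=
    fun b => ad_of_not _ (S_wr n k l _ b)
  simp only [e1, e2, e3, e4, one_mul, zero_mul]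
  simp only [yv, Sum.elim_inr, Sum.elim_inl]
  rw [Finset.sum_const, Finset.sum_const, Finset.sum_const, Finset.sum_const]
  simp only [Finset.card_univ, Fintype.card_fin, nsmul_eq_mul]
  rw [Nat.cast_sub hlk]
  push_cast
  ring

lemma row_w (α β γ : ℝ) (a : Fin 1) :
    ∑ w, ad (Sgraph n k l) (Sum.inr (Sum.inr a)) w * yv n k l α β γ w = (l : ℝ) * α := by
  rw [Fintype.sum_sum_type, Fintype.sum_sum_type]
  have e1 : ∀ b, ad (Sgraph n k l) (Sum.inr (Sum.inr a)) (Sum.inl b) = 1 := fun b =>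
    ad_of_adj _ (S_rl n k l b _)
  have e2 : ∀ b, ad (Sgraph n k l) (Sum.inr (Sum.inr a)) (Sum.inr (Sum.inl b)) = 0 :=
    fun b => ad_of_not _ (S_rw n k l b a)
  have e3 : ∀ b, ad (Sgraph n k l) (Sum.inr (Sum.inr a)) (Sum.inr (Sum.inr b)) = 0 :=
    fun b => ad_of_not _ (S_ww n k l b a)
  simp only [e1, e2, e3, one_mul, zero_mul]
  simp only [yv, Sum.elim_inl]
  rw [Finset.sum_const, Finset.sum_const, Finset.sum_const]
  simp only [Finset.card_univ, Fintype.card_fin, nsmul_eq_mul]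
  ring

lemma sum_parts (f : SV n k l → ℝ) :
    ∑ v, f v = ∑ a : Fin l, f (Sum.inl a) + (∑ a : Fin (k - l), f (Sum.inr (Sum.inl (Sum.inl a))) +
      ∑ a : Fin (n - k - 1), f (Sum.inr (Sum.inl (Sum.inr a))) + ∑ a : Fin 1, f (Sum.inr (Sum.inr a))) := by
  rw [Fintype.sum_sum_type, Fintype.sum_sum_type, Fintype.sum_sum_type]

lemma QF_yv (α β γ : ℝ) (hlk : l ≤ k) :
    QF (Sgraph n k l) (yv n k l α β γ) =
      (k : ℝ) * ((k : ℝ) - 1) * α ^ 2 + 2 * k * ((n - k - 1 : ℕ) : ℝ) * α * β + 2 * l * α * γ := by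
  unfold QF
  rw [sum_parts]
  simp only [row_l n k l α β γ _ hlk, row_m n k l α β γ _ hlk, row_t n k l α β γ _ hlk,
    row_w n k l α β γ]
  simp only [yv, Sum.elim_inr, Sum.elim_inl]
  rw [Finset.sum_const, Finset.sum_const, Finset.sum_const, Finset.sum_const]
  simp only [Finset.card_univ, Fintype.card_fin, nsmul_eq_mul]
  rw [Nat.cast_sub hlk]
  push_cast
  ring

lemma norm_yv (α β γ : ℝ) (hlk : l ≤ k) :
    ∑ v, (yv n k l α β γ v) ^ 2 = (k : ℝ) * α ^ 2 + ((n - k - 1 : ℕ) : ℝ) * β ^ 2 + γ ^ 2 := by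
  rw [sum_parts]
  simp only [yv, Sum.elim_inr, Sum.elim_inl]
  rw [Finset.sum_const, Finset.sum_const, Finset.sum_const, Finset.sum_const]
  simp only [Finset.card_univ, Fintype.card_fin, nsmul_eq_mul]
  rw [Nat.cast_sub hlk]
  push_cast
  ring

lemma S_two_m (hlk : l ≤ k) :
    ∑ v, dg (Sgraph n k l) univ v =
      (k : ℝ) * ((k : ℝ) - 1) + 2 * k * ((n - k - 1 : ℕ) : ℝ) + 2 * l := by
  have h1 := QF_yv n k l 1 1 1 hlk
  have h2 : QF (Sgraph n k l) (yv n k l 1 1 1) = ∑ v, dg (Sgraph n k l) univ v := by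
    unfold QF dg
    have : ∀ v, yv n k l 1 1 1 v = 1 := by
      rintro (a | ((a | a) | a)) <;> simp [yv]
    simp [this]
  rw [← h2, h1]
  ring

end S

lemma S_edges (n k l : ℕ) (hlk : l ≤ k) (hk : 1 ≤ k) :
    (Sgraph n k l).edgeSet.ncard = k * (n - k - 1) + k * (k - 1) / 2 + l := by
  classical
  have h1 := edges_eq (Sgraph n k l)
  rw [S_two_m n k l hlk] at h1
  have hdiv : 2 * (k * (k - 1) / 2) = k * (k - 1) :=
    Nat.mul_div_cancel' (Nat.even_mul_pred_self k).two_dvd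
  have h2 : ((2 * (Sgraph n k l).edgeSet.ncard : ℕ) : ℝ) =
      ((k * (k - 1) + 2 * k * (n - k - 1) + 2 * l : ℕ) : ℝ) := by
    push_cast
    rw [Nat.cast_sub hk]
    push_cast at h1 ⊢
    linarith
  have h3 : 2 * (Sgraph n k l).edgeSet.ncard = k * (k - 1) + 2 * k * (n - k - 1) + 2 * l := by
    exact_mod_cast h2
  have h4 : 2 * k * (n - k - 1) = 2 * (k * (n - k - 1)) := by ring
  omega

lemma S_lam (n k l : ℕ) (hlk : l < k) (hl : 1 ≤ l) :
    0 < lam (Sgraph n k l) ∧ ((k : ℝ) - 1) * lam (Sgraph n k l) +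
      (k : ℝ) * ((n - k - 1 : ℕ) : ℝ) + (l : ℝ) ^ 2 / k ≤ lam (Sgraph n k l) ^ 2 := by
  classical
  have : Nonempty (SV n k l) := ⟨Sum.inr (Sum.inr 0)⟩
  set μ := lam (Sgraph n k l) with hμ
  have hk0 : (0 : ℝ) < k := by
    have : 0 < k := by omega
    exact_mod_cast this
  have hl1 : (1 : ℝ) ≤ l := by exact_mod_cast hl
  have hk1 : (1 : ℝ) ≤ k := by
    have : 1 ≤ k := by omega
    exact_mod_cast this
  have ht : (0 : ℝ) ≤ ((n - k - 1 : ℕ) : ℝ) := Nat.cast_nonneg _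
  have hpos : 0 < μ := by
    have h1 := rayleigh (Sgraph n k l) (yv n k l 1 1 1)
    rw [QF_yv n k l _ _ _ hlk.le, norm_yv n k l _ _ _ hlk.le] at h1
    by_contra hcon
    push Not at hcon
    have h2 : (0 : ℝ) < (k : ℝ) * ((k : ℝ) - 1) * 1 ^ 2 + 2 * k * ((n - k - 1 : ℕ) : ℝ) * 1 * 1 +
        2 * l * 1 * 1 := by
      have : 0 ≤ (k : ℝ) * ((k : ℝ) - 1) := mul_nonneg hk0.le (by linarith)
      have : 0 ≤ (k : ℝ) * ((n - k - 1 : ℕ) : ℝ) := mul_nonneg hk0.le ht
      nlinarith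
    have h3 : μ * ((k : ℝ) * 1 ^ 2 + ((n - k - 1 : ℕ) : ℝ) * 1 ^ 2 + 1 ^ 2) ≤ 0 := by
      apply mul_nonpos_of_nonpos_of_nonneg hcon
      nlinarith
    linarith
  refine ⟨hpos, ?_⟩
  have h1 := rayleigh (Sgraph n k l) (yv n k l 1 (k / μ) (l / μ))
  rw [QF_yv n k l _ _ _ hlk.le, norm_yv n k l _ _ _ hlk.le, ← hμ] at h1
  set t : ℝ := ((n - k - 1 : ℕ) : ℝ) with ht'
  have h2 : ((k : ℝ) * ((k : ℝ) - 1) * 1 ^ 2 + 2 * k * t * 1 * (k / μ) + 2 * l * 1 * (l / μ)) * μ
      ≤ (μ * ((k : ℝ) * 1 ^ 2 + t * (k / μ) ^ 2 + (l / μ) ^ 2)) * μ := by gcongr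
  have h3 : ((k : ℝ) * ((k : ℝ) - 1) * 1 ^ 2 + 2 * k * t * 1 * (k / μ) + 2 * l * 1 * (l / μ)) * μ =
      (k : ℝ) * ((k : ℝ) - 1) * μ + 2 * k ^ 2 * t + 2 * l ^ 2 := by
    field_simp
  have h4 : (μ * ((k : ℝ) * 1 ^ 2 + t * (k / μ) ^ 2 + (l / μ) ^ 2)) * μ =
      (k : ℝ) * μ ^ 2 + t * k ^ 2 + l ^ 2 := by
    field_simp
  rw [h3, h4] at h2
  have h5 : (k : ℝ) * (((k : ℝ) - 1) * μ + (k : ℝ) * t + (l : ℝ) ^ 2 / k) ≤ (k : ℝ) * μ ^ 2 := by
    have : (k : ℝ) * (((k : ℝ) - 1) * μ + (k : ℝ) * t + (l : ℝ) ^ 2 / k) =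
        (k : ℝ) * ((k : ℝ) - 1) * μ + (k : ℝ) ^ 2 * t + (l : ℝ) ^ 2 := by
      field_simp
    rw [this]
    linarith
  exact le_of_mul_le_mul_left h5 hk0

/-- clique vertices of `S` -/
def Kset (n k l : ℕ) : Finset (SV n k l) :=
  (univ : Finset (Fin l ⊕ Fin (k - l))).image
    (Sum.elim (fun a => Sum.inl a) (fun a => Sum.inr (Sum.inl (Sum.inl a))))

lemma Kset_card (n k l : ℕ) (hlk : l ≤ k) : (Kset n k l).card ≤ k := by
  refine Finset.card_image_le.trans ?_
  rw [Finset.card_univ, Fintype.card_sum, Fintype.card_fin, Fintype.card_fin]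
  omega

lemma S_adj_K (n k l : ℕ) {v w : SV n k l} (h : (Sgraph n k l).Adj v w) :
    v ∈ Kset n k l ∨ w ∈ Kset n k l := by
  have h1 : ∀ a : Fin l, (Sum.inl a : SV n k l) ∈ Kset n k l := fun a =>
    Finset.mem_image.2 ⟨Sum.inl a, Finset.mem_univ _, rfl⟩
  have h2 : ∀ a : Fin (k - l), (Sum.inr (Sum.inl (Sum.inl a)) : SV n k l) ∈ Kset n k l := fun a =>
    Finset.mem_image.2 ⟨Sum.inr a, Finset.mem_univ _, rfl⟩
  rcases v with a | ((a | a) | a)
  · exact Or.inl (h1 a)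
  · exact Or.inl (h2 a)
  · rcases w with b | ((b | b) | b)
    · exact Or.inr (h1 b)
    · exact Or.inr (h2 b)
    · exact absurd h (S_tt n k l a b)
    · exact absurd h (S_wr n k l _ b)
  · rcases w with b | ((b | b) | b)
    · exact Or.inr (h1 b)
    · exact Or.inr (h2 b)
    · exact absurd h (S_rw n k l _ a)
    · exact absurd h (S_ww n k l b a)

lemma S_free (n k l : ℕ) (hk : 1 ≤ k) (hlk : l ≤ k) : (friendship k).Free (Sgraph n k l) := by
  classical
  rintro ⟨f⟩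
  have hinj : Function.Injective f := f.injective
  set c : SV n k l := f (Sum.inl 0) with hc
  set p : Fin k × Fin 2 → SV n k l := fun q => f (Sum.inr q) with hp
  have hcp : ∀ q, (Sgraph n k l).Adj c (p q) := fun q =>
    f.toHom.map_adj (show (friendship k).Adj (Sum.inl 0) (Sum.inr q) by simp [friendship])
  have hpp : ∀ i, (Sgraph n k l).Adj (p (i, 0)) (p (i, 1)) := fun i =>
    f.toHom.map_adj (show (friendship k).Adj (Sum.inr (i, 0)) (Sum.inr (i, 1)) by
      simp [friendship, kK2])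
  have hpinj : Function.Injective p := fun a b h => by
    have := hinj h
    simpa using this
  by_cases hcK : c ∈ Kset n k l
  · -- choose endpoints
    have hch : ∀ i : Fin k, ∃ j : Fin 2, p (i, j) ∈ Kset n k l := by
      intro i
      rcases S_adj_K n k l (hpp i) with h | h
      · exact ⟨0, h⟩
      · exact ⟨1, h⟩
    choose j hj using hch
    have h1 : (Finset.univ.image fun i : Fin k => p (i, j i)) ⊆ (Kset n k l).erase c := by
      intro v hv
      rw [Finset.mem_image] at hv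
      obtain ⟨i, -, rfl⟩ := hv
      exact Finset.mem_erase.2 ⟨(hcp (i, j i)).ne', hj i⟩
    have h2 := Finset.card_le_card h1
    rw [Finset.card_image_of_injective, Finset.card_univ, Fintype.card_fin,
      Finset.card_erase_of_mem hcK] at h2
    · have := Kset_card n k l hlk
      omega
    · intro i i' h
      have := hpinj h
      exact (Prod.mk.inj this).1
  · have h1 : (Finset.univ.image p) ⊆ Kset n k l := by
      intro v hv
      rw [Finset.mem_image] at hv
      obtain ⟨q, -, rfl⟩ := hv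
      rcases S_adj_K n k l (hcp q) with h | h
      · exact absurd h hcK
      · exact h
    have h2 := Finset.card_le_card h1
    rw [Finset.card_image_of_injective _ hpinj, Finset.card_univ, Fintype.card_prod,
      Fintype.card_fin, Fintype.card_fin] at h2
    have := Kset_card n k l hlk
    omega

lemma S_noiso (n k l : ℕ) (hk : 2 ≤ k) (hl : 1 ≤ l) (hlk : l < k) :
    ∀ v, ∃ w, (Sgraph n k l).Adj v w := by
  have hl0 : 0 < l := by omega
  have hkl : 0 < k - l := by omega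
  rintro (a | ((a | a) | a))
  · exact ⟨Sum.inr (Sum.inr 0), S_lr _ _ _ _ _⟩
  · exact ⟨Sum.inl ⟨0, hl0⟩, S_rl _ _ _ _ _⟩
  · exact ⟨Sum.inl ⟨0, hl0⟩, S_rl _ _ _ _ _⟩
  · exact ⟨Sum.inl ⟨0, hl0⟩, S_rl _ _ _ _ _⟩

end Pool.Agent.F3
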