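import Pool.Agent.Hhelper34.F3.Struct
import Pool.Agent.Hhelper34.F3.Sfacts

set_option linter.unusedSectionVars false
set_option linter.unusedVariables false

namespace Pool.Agent.F3
open SimpleGraph Finset

universe u

theorem main_iso {k m l t : ℕ} (hk : 3 ≤ k) (hl1 : 1 ≤ l) (hlk : l < k)
    (ht : m = k * t + k * (k - 1) / 2 + l) (hbig : 10 ^ 14 * k ^ 14 + k ^ 2 ≤ m)
    {V : Type u} [Fintype V] (G : SimpleGraph V) (hG : InClass m k G)
    (hle : lam (Sgraph (t + k + 1) k l) ≤ lam G) :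
    Nonempty (G ≃g Sgraph (t + k + 1) k l) := by
  classical
  obtain ⟨hfree, hm, hiso⟩ := hG
  have hk3 : (3 : ℝ) ≤ k := by exact_mod_cast hk
  have hk0 : (0 : ℝ) < k := by linarith
  have hl1' : (1 : ℝ) ≤ l := by exact_mod_cast hl1
  have hlk' : (l : ℝ) < k := by exact_mod_cast hlk
  have hne : Nonempty V := by
    by_contra hcon
    rw [not_nonempty_iff] at hcon
    have h1 : G.edgeSet.ncard = 0 := by
      rw [Set.ncard_eq_zero]
      ext e
      simp only [Set.mem_empty_iff_false, iff_false]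
      intro he
      induction e with
      | _ a b => exact hcon.elim a
    have h2 : 0 < k ^ 2 := by positivity
    omega
  obtain ⟨x, u, hx0, hx1, hxu, heig⟩ := exists_perron G
  set lm := lam G with hlm
  have htt : t + k + 1 - k - 1 = t := by omega
  obtain ⟨hμ0, hμ⟩ := S_lam (t + k + 1) k l hlk hl1
  have httR : ((t + k + 1 - k - 1 : ℕ) : ℝ) = (t : ℝ) := by rw [htt]
  set μ := lam (Sgraph (t + k + 1) k l) with hμdef
  rw [httR] at hμ
  have htn : (0 : ℝ) ≤ (t : ℝ) := Nat.cast_nonneg _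
  have hμk : (k : ℝ) - 1 ≤ μ := by
    have h1 : 0 ≤ (k : ℝ) * t := by positivity
    have h2 : 0 ≤ (l : ℝ) ^ 2 / k := by positivity
    by_contra hcon
    push Not at hcon
    nlinarith
  have hlow0 : (k : ℝ) * t + (l : ℝ) ^ 2 / k ≤ lm ^ 2 - ((k : ℝ) - 1) * lm := by
    have : 0 ≤ (lm - μ) * (lm + μ - ((k : ℝ) - 1)) := by
      apply mul_nonneg
      · linarith
      · linarith
    nlinarith
  have hdiv : ((k * (k - 1) / 2 : ℕ) : ℝ) = (k : ℝ) * ((k : ℝ) - 1) / 2 := by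
    have h2 : 2 ∣ k * (k - 1) := (Nat.even_mul_pred_self k).two_dvd
    rw [Nat.cast_div h2 (by norm_num)]
    rw [Nat.cast_mul, Nat.cast_sub (by omega)]
    simp
  have hmR : (m : ℝ) = (k : ℝ) * t + (k : ℝ) * ((k : ℝ) - 1) / 2 + l := by
    have : (m : ℝ) = ((k * t + k * (k - 1) / 2 + l : ℕ) : ℝ) := by exact_mod_cast ht
    rw [this, Nat.cast_add, Nat.cast_add, hdiv, Nat.cast_mul]
  have hll : (l : ℝ) - (l : ℝ) * ((k : ℝ) - l) / k = (l : ℝ) ^ 2 / k := by
    field_simp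
    ring
  have hlow : (m : ℝ) - (k : ℝ) * ((k : ℝ) - 1) / 2 - (l : ℝ) * ((k : ℝ) - l) / k ≤
      lm ^ 2 - ((k : ℝ) - 1) * lm := by
    rw [hmR]
    linarith
  have hlmpos : 0 < lm := by linarith
  have hlmbig : 10 ^ 7 * (k : ℝ) ^ 7 ≤ lm := by
    by_contra hcon
    push Not at hcon
    have h1 : lm ^ 2 < (10 ^ 7 * (k : ℝ) ^ 7) ^ 2 := by
      have : 0 ≤ lm := hlmpos.le
      gcongr
    have h2 : (10 ^ 7 * (k : ℝ) ^ 7) ^ 2 = 10 ^ 14 * (k : ℝ) ^ 14 := by ring
    have h3 : (10 : ℝ) ^ 14 * (k : ℝ) ^ 14 + (k : ℝ) ^ 2 ≤ m := by exact_mod_cast hbig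
    have h4 : 0 ≤ ((k : ℝ) - 1) * lm := mul_nonneg (by linarith) hlmpos.le
    have h5 : 0 ≤ (l : ℝ) ^ 2 / k := by positivity
    have h6 : (k : ℝ) * ((k : ℝ) - 1) / 2 + l ≤ (k : ℝ) ^ 2 := by nlinarith
    nlinarith
  have h2m : 2 * (m : ℝ) = ∑ v, dg G univ v := by
    rw [← edges_eq, hm]
  have hctx : Ctx G x lm u k := by
    refine ⟨hk, hx0, hx1, hxu, ?_, hfree, hlmbig, ?_⟩
    · intro v
      exact heig v
    · rw [← h2m]
      have h1 : (l : ℝ) * ((k : ℝ) - l) / k ≤ (k : ℝ) / 4 := by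
        rw [div_le_iff₀ hk0]
        nlinarith [sq_nonneg ((k : ℝ) - 2 * l)]
      nlinarith
  obtain ⟨B, w, hwB, hBc, hcl, hind, hwl, hfull⟩ :=
    structure_thm hctx h2m hl1 hlk ⟨t, ht⟩ hlow hiso
  obtain ⟨e⟩ := iso_of_structure B w hwB hBc hcl hind hwl hfull
  -- determine the number of vertices
  have hcardV : k + 1 ≤ Fintype.card V := by
    have h1 : (insert w B).card = k + 1 := by rw [Finset.card_insert_of_notMem hwB, hBc]
    rw [← h1]
    exact Finset.card_le_univ _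
  have hedges : (Sgraph (Fintype.card V) k l).edgeSet.ncard = m := by
    rw [← hm]
    have := Nat.card_congr e.mapEdgeSet
    rw [Nat.card_coe_set_eq, Nat.card_coe_set_eq] at this
    exact this
  rw [S_edges _ _ _ hlk.le (by omega), ht] at hedges
  have h1 : k * (Fintype.card V - k - 1) = k * t := by omega
  have h2 : Fintype.card V - k - 1 = t := Nat.eq_of_mul_eq_mul_left (by omega) h1
  have h3 : Fintype.card V = t + k + 1 := by omega
  rw [h3] at e
  exact ⟨e.symm⟩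

end Pool.Agent.F3
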