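import Pool.Agent.Hhelper34.F3.Defs

namespace Pool.Agent.F3
open SimpleGraph Finset

universe u

variable {V : Type u} [DecidableEq V] (G : SimpleGraph V) [DecidableRel G.Adj]

/-- `S` contains a matching of size `r` (recursive form). -/
def HasM : Finset V → ℕ → Prop
  | _, 0 => True
  | S, r+1 => ∃ a ∈ S, ∃ b ∈ S, G.Adj a b ∧ HasM ((S.erase a).erase b) r

omit [DecidableRel G.Adj] in
lemma hasM_mono {r : ℕ} : ∀ {S T : Finset V}, S ⊆ T → HasM G S r → HasM G T r := by
  induction r with
  | zero => intro S T _ _; trivial
  | succ r ih =>
    intro S T hST h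
    obtain ⟨a, ha, b, hb, hab, h⟩ := h
    exact ⟨a, hST ha, b, hST hb, hab, ih (Finset.erase_subset_erase _ (Finset.erase_subset_erase _ hST)) h⟩

omit [DecidableRel G.Adj] in
lemma hasM_fun {r : ℕ} : ∀ {S : Finset V}, HasM G S r →
    ∃ f : Fin r × Fin 2 → V, Function.Injective f ∧ (∀ p, f p ∈ S) ∧
      ∀ i, G.Adj (f (i, 0)) (f (i, 1)) := by
  induction r with
  | zero =>
    intro S _
    exact ⟨fun p => p.1.elim0, fun p => p.1.elim0, fun p => p.1.elim0, fun i => i.elim0⟩
  | succ r ih =>
    intro S h
    obtain ⟨a, ha, b, hb, hab, h⟩ := h
    obtain ⟨g, hg, hgS, hgA⟩ := ih h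
    have hne : a ≠ b := hab.ne
    have hga : ∀ p, g p ≠ a := fun p hp => by
      have := hgS p
      simp [hp] at this
    have hgb : ∀ p, g p ≠ b := fun p hp => by
      have := hgS p
      simp [hp] at this
    refine ⟨fun p => Fin.cases (if p.2 = 0 then a else b) (fun i => g (i, p.2)) p.1, ?_, ?_, ?_⟩
    · rintro ⟨i, j⟩ ⟨i', j'⟩ h
      induction i using Fin.cases with
      | zero =>
        induction i' using Fin.cases with
        | zero =>
          simp only [Fin.cases_zero] at h
          fin_cases j <;> fin_cases j' <;> simp_all
        | succ i' =>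
          simp only [Fin.cases_zero, Fin.cases_succ] at h
          exfalso
          split_ifs at h
          · exact hga _ h.symm
          · exact hgb _ h.symm
      | succ i =>
        induction i' using Fin.cases with
        | zero =>
          simp only [Fin.cases_zero, Fin.cases_succ] at h
          exfalso
          split_ifs at h
          · exact hga _ h
          · exact hgb _ h
        | succ i' =>
          simp only [Fin.cases_succ] at h
          have := hg h
          simp only [Prod.mk.injEq] at this ⊢
          exact ⟨by rw [this.1], this.2⟩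
    · rintro ⟨i, j⟩
      induction i using Fin.cases with
      | zero =>
        simp only [Fin.cases_zero]
        split_ifs <;> assumption
      | succ i =>
        simp only [Fin.cases_succ]
        have := hgS (i, j)
        simp only [Finset.mem_erase] at this
        exact this.2.2
    · intro i
      induction i using Fin.cases with
      | zero => simpa using hab
      | succ i => simpa using hgA i

omit [DecidableRel G.Adj] [DecidableEq V] in
/-- A matching of size `k` in the neighbourhood of `v` gives a friendship graph. -/
lemma friendship_of_matching {k : ℕ} {v : V} (f : Fin k × Fin 2 → V) (hf : Function.Injective f)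
    (hv : ∀ p, G.Adj v (f p)) (hA : ∀ i, G.Adj (f (i, 0)) (f (i, 1))) :
    (friendship k).IsContained G := by
  refine ⟨⟨⟨Sum.elim (fun _ => v) f, ?_⟩, ?_⟩⟩
  · rintro (a | a) (b | b) h
    · simp [friendship, join, Fin.eq_zero a, Fin.eq_zero b] at h
    · simpa using hv b
    · simpa using (hv a).symm
    · simp only [friendship, join, SimpleGraph.sup_adj, SimpleGraph.sum_adj_inr] at h
      have h' : (kK2 k).Adj a b := by
        rcases h with h | h
        · exact h
        · simp at h
      obtain ⟨i, j⟩ := a
      obtain ⟨i', j'⟩ := b
      obtain ⟨h1, h2⟩ := h'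
      simp only at h1 h2
      subst h1
      simp only [Sum.elim_inr]
      fin_cases j <;> fin_cases j'
      · simp at h2
      · exact hA i
      · exact (hA i).symm
      · simp at h2
  · rintro (a | a) (b | b) h
    · simp [Fin.eq_zero a, Fin.eq_zero b]
    · exfalso
      have h' : v = f b := h
      exact (hv b).ne h'
    · exfalso
      have h' : f a = v := h
      exact (hv a).ne h'.symm
    · have h' : f a = f b := h
      rw [hf h']

/-- Greedy matching. -/
lemma greedy {r : ℕ} : ∀ {S C : Finset V}, C ⊆ S → r ≤ C.card →
    (∀ c ∈ C, 2 * r ≤ (S.filter (G.Adj c)).card + 1) → HasM G S r := by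
  induction r with
  | zero => intro _ _ _ _ _; trivial
  | succ r ih =>
    intro S C hCS hC hd
    obtain ⟨c, hc⟩ : C.Nonempty := by
      rw [← Finset.card_pos]; omega
    obtain ⟨C', hC', hC'card⟩ := Finset.exists_subset_card_eq (s := C.erase c) (n := r)
      (by rw [Finset.card_erase_of_mem hc]; omega)
    have hcS := hCS hc
    -- a neighbour of c outside C'
    have h1 : ∃ b ∈ S.filter (G.Adj c), b ∉ C' := by
      by_contra hcon
      push Not at hcon
      have := Finset.card_le_card (show S.filter (G.Adj c) ⊆ C' from hcon)
      have h2 := hd c hc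
      omega
    obtain ⟨b, hb, hbC'⟩ := h1
    rw [Finset.mem_filter] at hb
    refine ⟨c, hcS, b, hb.1, hb.2, ih (C := C') ?_ (by omega) ?_⟩
    · intro y hy
      rw [Finset.mem_erase, Finset.mem_erase]
      refine ⟨fun h => hbC' (h ▸ hy), ?_, hCS (Finset.mem_of_mem_erase (hC' hy))⟩
      exact Finset.ne_of_mem_erase (hC' hy)
    · intro y hy
      have hyC : y ∈ C := Finset.mem_of_mem_erase (hC' hy)
      have h2 := hd y hyC
      have h3 : (S.filter (G.Adj y)).card ≤
          (((S.erase c).erase b).filter (G.Adj y)).card + 2 := by
        have : S.filter (G.Adj y) ⊆ (((S.erase c).erase b).filter (G.Adj y)) ∪ {c, b} := by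
          intro z hz
          simp only [Finset.mem_filter, Finset.mem_union, Finset.mem_erase, Finset.mem_insert,
            Finset.mem_singleton] at hz ⊢
          tauto
        calc (S.filter (G.Adj y)).card ≤ _ := Finset.card_le_card this
          _ ≤ _ := Finset.card_union_le _ _
          _ ≤ _ := by
            have := Finset.card_le_two (a := c) (b := b)
            omega
      omega

/-- If `M` has no matching of size `r+1` and all degrees inside `M` are at most `D`, then the
degree sum inside `M` is at most `4 D r`. -/
lemma edge_bound {D : ℕ} {r : ℕ} : ∀ {M : Finset V},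
    (∀ v ∈ M, (M.filter (G.Adj v)).card ≤ D) → ¬ HasM G M (r + 1) →
    ∑ v ∈ M, (M.filter (G.Adj v)).card ≤ 4 * D * r := by
  induction r with
  | zero =>
    intro M _ hM
    have : ∀ v ∈ M, (M.filter (G.Adj v)).card = 0 := by
      intro v hv
      rw [Finset.card_eq_zero, Finset.filter_eq_empty_iff]
      intro w hw hvw
      exact hM ⟨v, hv, w, hw, hvw, trivial⟩
    rw [Finset.sum_congr rfl this]
    simp
  | succ r ih =>
    intro M hD hM
    by_cases he : ∃ a ∈ M, ∃ b ∈ M, G.Adj a b
    · obtain ⟨a, ha, b, hb, hab⟩ := he
      set M' := (M.erase a).erase b with hM'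
      have hne : a ≠ b := hab.ne
      have hbM : b ∈ M.erase a := Finset.mem_erase.2 ⟨hne.symm, hb⟩
      have hM'no : ¬ HasM G M' (r + 1) := fun h => hM ⟨a, ha, b, hb, hab, h⟩
      have hsub : M' ⊆ M := (Finset.erase_subset _ _).trans (Finset.erase_subset _ _)
      have hD' : ∀ v ∈ M', (M'.filter (G.Adj v)).card ≤ D := fun v hv =>
        (Finset.card_le_card (Finset.filter_subset_filter _ hsub)).trans (hD v (hsub hv))
      have h1 := ih hD' hM'no
      -- decomposition of degrees
      have h2 : ∀ v ∈ M', (M.filter (G.Adj v)).card ≤ (M'.filter (G.Adj v)).card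
          + (if G.Adj a v then 1 else 0) + (if G.Adj b v then 1 else 0) := by
        intro v hv
        have hsubv : M.filter (G.Adj v) ⊆ (M'.filter (G.Adj v)) ∪
            ((if G.Adj a v then {a} else ∅) ∪ (if G.Adj b v then {b} else ∅)) := by
          intro z hz
          rw [Finset.mem_filter] at hz
          by_cases hza : z = a
          · subst hza
            have : G.Adj z v := hz.2.symm
            simp [this]
          · by_cases hzb : z = b
            · subst hzb
              have : G.Adj z v := hz.2.symm
              simp [this]
            · simp only [Finset.mem_union, Finset.mem_filter]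
              left
              exact ⟨Finset.mem_erase.2 ⟨hzb, Finset.mem_erase.2 ⟨hza, hz.1⟩⟩, hz.2⟩
        calc (M.filter (G.Adj v)).card ≤ _ := Finset.card_le_card hsubv
          _ ≤ _ := Finset.card_union_le _ _
          _ ≤ (M'.filter (G.Adj v)).card + ((if G.Adj a v then ({a} : Finset V) else ∅).card +
              (if G.Adj b v then ({b} : Finset V) else ∅).card) :=
              Nat.add_le_add_left (Finset.card_union_le _ _) _
          _ ≤ _ := by
            split_ifs <;> simp <;> omega
      have h3 : ∑ v ∈ M', (if G.Adj a v then 1 else 0) ≤ D := by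
        rw [← Finset.card_filter]
        exact (Finset.card_le_card (Finset.filter_subset_filter _ hsub)).trans (hD a ha)
      have h4 : ∑ v ∈ M', (if G.Adj b v then 1 else 0) ≤ D := by
        rw [← Finset.card_filter]
        exact (Finset.card_le_card (Finset.filter_subset_filter _ hsub)).trans (hD b hb)
      have h5 : ∑ v ∈ M, (M.filter (G.Adj v)).card =
          (M.filter (G.Adj a)).card + ((M.filter (G.Adj b)).card +
            ∑ v ∈ M', (M.filter (G.Adj v)).card) := by
        rw [← Finset.add_sum_erase M _ ha, ← Finset.add_sum_erase (M.erase a) _ hbM]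
      have h6 := Finset.sum_le_sum h2
      rw [Finset.sum_add_distrib, Finset.sum_add_distrib] at h6
      have h7 := hD a ha
      have h8 := hD b hb
      rw [h5]
      have : 4 * D * (r + 1) = 4 * D * r + 4 * D := by ring
      omega
    · have : ∀ v ∈ M, (M.filter (G.Adj v)).card = 0 := by
        intro v hv
        rw [Finset.card_eq_zero, Finset.filter_eq_empty_iff]
        intro w hw hvw
        exact he ⟨v, hv, w, hw, hvw⟩
      rw [Finset.sum_congr rfl this]
      simp

omit [DecidableRel G.Adj] [DecidableEq V] in
/-- A convenient form of freeness. -/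
lemma free_no_matching [DecidableEq V] [Fintype V] [DecidableRel G.Adj] {k : ℕ}
    (hF : (friendship k).Free G) (v : V) : ¬ HasM G (univ.filter (G.Adj v)) k := by
  intro h
  obtain ⟨f, hf, hS, hA⟩ := hasM_fun G h
  exact hF (friendship_of_matching G f hf (fun p => by simpa using hS p) hA)

end Pool.Agent.F3
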