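import Pool.Agent.Hhelper34.F3.Core4
import Pool.Agent.Hhelper34.F3.Arith

set_option linter.unusedSectionVars false
set_option linter.unusedVariables false

namespace Pool.Agent.F3
open SimpleGraph Finset

universe u

variable {V : Type u} [Fintype V] [DecidableEq V] {G : SimpleGraph V} [DecidableRel G.Adj]
variable {x : V → ℝ} {lm : ℝ} {u : V} {k : ℕ}

lemma dg_compl_split (B : Finset V) (v : V) : dg G univ v = dg G B v + dg G Bᶜ v := by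
  unfold dg
  exact (Finset.sum_add_sum_compl B _).symm

lemma two_m_compl (B : Finset V) :
    ∑ v, dg G univ v = ∑ b ∈ B, dg G B b + 2 * ∑ v ∈ Bᶜ, dg G B v + ∑ v ∈ Bᶜ, dg G Bᶜ v := by
  rw [← Finset.sum_add_sum_compl B]
  have e1 : ∑ b ∈ B, dg G univ b = ∑ b ∈ B, dg G B b + ∑ b ∈ B, dg G Bᶜ b := by
    rw [← Finset.sum_add_distrib]
    exact Finset.sum_congr rfl fun v _ => dg_compl_split B v
  have e2 : ∑ b ∈ Bᶜ, dg G univ b = ∑ b ∈ Bᶜ, dg G B b + ∑ b ∈ Bᶜ, dg G Bᶜ b := by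
    rw [← Finset.sum_add_distrib]
    exact Finset.sum_congr rfl fun v _ => dg_compl_split B v
  have e3 : ∑ b ∈ B, dg G Bᶜ b = ∑ b ∈ Bᶜ, dg G B b := dg_swap G _ _
  rw [e1, e2, e3]
  ring

/-- From the analytic core to the exact structure. -/
theorem structure_thm (h : Ctx G x lm u k) {m l : ℕ}
    (hm : 2 * (m : ℝ) = ∑ v, dg G univ v) (hl1 : 1 ≤ l) (hlk : l < k)
    (hmod : ∃ t : ℕ, m = k * t + k * (k - 1) / 2 + l)
    (hlow : (m : ℝ) - (k : ℝ) * ((k : ℝ) - 1) / 2 - (l : ℝ) * ((k : ℝ) - l) / k ≤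
      lm ^ 2 - ((k : ℝ) - 1) * lm)
    (hiso : ∀ v, ∃ w, G.Adj v w) :
    ∃ B : Finset V, ∃ w, w ∉ B ∧ B.card = k ∧ (∀ b ∈ B, ∀ b' ∈ B, b ≠ b' → G.Adj b b') ∧
      (∀ v, v ∉ B → ∀ v', v' ∉ B → ¬ G.Adj v v') ∧ (B.filter (G.Adj w)).card = l ∧
      (∀ v, v ∉ B → v ≠ w → ∀ b ∈ B, G.Adj v b) := by
  obtain ⟨B, hB1, hB2, hB3⟩ := h.output
  have hk3 := h.k3
  have hk3' := h.hk
  have hk0 : (0 : ℝ) < k := by linarith
  have hlk' : (l : ℝ) ≤ (k : ℝ) - 1 := by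
    have : ((l + 1 : ℕ) : ℝ) ≤ (k : ℝ) := by exact_mod_cast hlk
    push_cast at this; linarith
  have hl1' : (1 : ℝ) ≤ (l : ℝ) := by exact_mod_cast hl1
  have hsk : (k : ℝ) ≤ (B.card : ℝ) := by exact_mod_cast hB1
  have hspos : (0 : ℝ) < (B.card : ℝ) := by linarith
  have hdgB : ∀ b ∈ B, dg G B b = (k : ℝ) - 1 := by
    intro b hb
    rw [dg_eq_card, hB2 b hb, Nat.cast_sub (by omega)]
    simp
  have hsum : ∑ b ∈ B, dg G B b = (B.card : ℝ) * ((k : ℝ) - 1) := by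
    rw [Finset.sum_congr rfl hdgB, Finset.sum_const, nsmul_eq_mul]
  have hcount := two_m_compl (G := G) B
  rw [hsum, ← hm] at hcount
  have hE2 : 0 ≤ ∑ v ∈ Bᶜ, dg G Bᶜ v := Finset.sum_nonneg fun v _ => dg_nonneg G _ _
  have hqs : ∀ v, dg G B v ≤ (B.card : ℝ) := fun v => dg_le_card G _ _
  have hq0 : ∀ v, 0 ≤ dg G B v := fun v => dg_nonneg G _ _
  have hsq : (∑ v ∈ Bᶜ, dg G B v ^ 2) / (B.card : ℝ) ≤ ∑ v ∈ Bᶜ, dg G B v := by
    rw [div_le_iff₀ hspos, Finset.sum_mul]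
    refine Finset.sum_le_sum fun v _ => ?_
    have := hqs v
    have := hq0 v
    nlinarith
  have hll : (l : ℝ) * ((k : ℝ) - l) / k ≤ (k : ℝ) / 4 := by
    rw [div_le_iff₀ hk0]
    nlinarith [sq_nonneg ((k : ℝ) - 2 * l)]
  -- s = k
  have hcard : B.card = k := by
    by_contra hne
    have h1 : k + 1 ≤ B.card := by omega
    have h2 : (k : ℝ) + 1 ≤ (B.card : ℝ) := by exact_mod_cast h1
    have h3 : ((k : ℝ) + 1) * ((k : ℝ) - 1) ≤ (B.card : ℝ) * ((k : ℝ) - 1) := by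
      have : (0 : ℝ) ≤ (k : ℝ) - 1 := by linarith
      gcongr
    have h4 : ((k : ℝ) - 1) / 2 ≤ (k : ℝ) / 4 + 1 / (4 * (k : ℝ)) := by
      have : (m : ℝ) - (k : ℝ) * ((k : ℝ) - 1) / 2 - (k : ℝ) / 4 ≤
          ∑ v ∈ Bᶜ, dg G B v + 1 / (4 * (k : ℝ)) := by linarith
      nlinarith
    have h5 : (k : ℝ) * (1 / (4 * (k : ℝ))) = 1 / 4 := by field_simp
    have h6 : (k : ℝ) * (((k : ℝ) - 1) / 2) ≤ (k : ℝ) * ((k : ℝ) / 4 + 1 / (4 * (k : ℝ))) := by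
      gcongr
    rw [mul_add, h5] at h6
    nlinarith
  -- now the arithmetic
  set q : V → ℕ := fun v => (B.filter (G.Adj v)).card with hq
  have hqdg : ∀ v, dg G B v = (q v : ℝ) := fun v => dg_eq_card G B v
  have hqk : ∀ v, q v ≤ k := fun v => by
    rw [← hcard]; exact Finset.card_filter_le _ _
  rw [hcard] at hcount hB3
  -- the number e of edges in the complement
  have hdiv : ((k * (k - 1) / 2 : ℕ) : ℝ) = (k : ℝ) * ((k : ℝ) - 1) / 2 := by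
    have h2 : 2 ∣ k * (k - 1) := (Nat.even_mul_pred_self k).two_dvd
    rw [Nat.cast_div h2 (by norm_num)]
    rw [Nat.cast_mul, Nat.cast_sub (by omega)]
    simp
  obtain ⟨t, ht⟩ := hmod
  have hQ : ((∑ v ∈ Bᶜ, q v : ℕ) : ℝ) = ∑ v ∈ Bᶜ, dg G B v := by
    push_cast
    exact Finset.sum_congr rfl fun v _ => (hqdg v).symm
  have hle : (∑ v ∈ Bᶜ, q v) + k * (k - 1) / 2 ≤ m := by
    have : (((∑ v ∈ Bᶜ, q v) + k * (k - 1) / 2 : ℕ) : ℝ) ≤ (m : ℝ) := by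
      rw [Nat.cast_add, hdiv, hQ]
      linarith
    exact_mod_cast this
  obtain ⟨e, he⟩ := Nat.exists_eq_add_of_le hle
  have heR : (m : ℝ) = ∑ v ∈ Bᶜ, dg G B v + (k : ℝ) * ((k : ℝ) - 1) / 2 + (e : ℝ) := by
    have h0 : (m : ℝ) = (((∑ v ∈ Bᶜ, q v) + k * (k - 1) / 2 + e : ℕ) : ℝ) := by exact_mod_cast he
    have h1 : (((∑ v ∈ Bᶜ, q v) + k * (k - 1) / 2 + e : ℕ) : ℝ) =
        ((∑ v ∈ Bᶜ, q v : ℕ) : ℝ) + ((k * (k - 1) / 2 : ℕ) : ℝ) + (e : ℝ) := by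
      rw [Nat.cast_add, Nat.cast_add]
    rw [h0, h1, hdiv, hQ]
  have hE2e : ∑ v ∈ Bᶜ, dg G Bᶜ v = 2 * (e : ℝ) := by linarith
  have hineq : k * e + ∑ v ∈ Bᶜ, q v * (k - q v) ≤ l * (k - l) := by
    have h1 : ((k * e + ∑ v ∈ Bᶜ, q v * (k - q v) : ℕ) : ℝ) ≤
        ((l * (k - l) : ℕ) : ℝ) + 1 / 4 := by
      have a1 : ((l * (k - l) : ℕ) : ℝ) = (l : ℝ) * ((k : ℝ) - l) := by
        rw [Nat.cast_mul, Nat.cast_sub hlk.le]
      have a2 : ((k * e + ∑ v ∈ Bᶜ, q v * (k - q v) : ℕ) : ℝ) =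
          (k : ℝ) * e + ∑ v ∈ Bᶜ, dg G B v * ((k : ℝ) - dg G B v) := by
        push_cast
        congr 1
        refine Finset.sum_congr rfl fun v _ => ?_
        rw [hqdg v, Nat.cast_sub (hqk v)]
      have a3 : ∑ v ∈ Bᶜ, dg G B v * ((k : ℝ) - dg G B v) =
          (k : ℝ) * ∑ v ∈ Bᶜ, dg G B v - ∑ v ∈ Bᶜ, dg G B v ^ 2 := by
        rw [Finset.mul_sum, ← Finset.sum_sub_distrib]
        exact Finset.sum_congr rfl fun v _ => by ring
      rw [a1, a2, a3]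
      have a4 : (m : ℝ) - (k : ℝ) * ((k : ℝ) - 1) / 2 - (l : ℝ) * ((k : ℝ) - l) / k ≤
          (∑ v ∈ Bᶜ, dg G B v ^ 2) / (k : ℝ) + 1 / (4 * (k : ℝ)) := hlow.trans hB3
      have a5 : (k : ℝ) * ((m : ℝ) - (k : ℝ) * ((k : ℝ) - 1) / 2 - (l : ℝ) * ((k : ℝ) - l) / k) ≤
          (k : ℝ) * ((∑ v ∈ Bᶜ, dg G B v ^ 2) / (k : ℝ) + 1 / (4 * (k : ℝ))) := by gcongr
      have a6 : (k : ℝ) * ((∑ v ∈ Bᶜ, dg G B v ^ 2) / (k : ℝ) + 1 / (4 * (k : ℝ))) =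
          ∑ v ∈ Bᶜ, dg G B v ^ 2 + 1 / 4 := by
        field_simp
      have a7 : (k : ℝ) * ((m : ℝ) - (k : ℝ) * ((k : ℝ) - 1) / 2 - (l : ℝ) * ((k : ℝ) - l) / k) =
          (k : ℝ) * ((m : ℝ) - (k : ℝ) * ((k : ℝ) - 1) / 2) - (l : ℝ) * ((k : ℝ) - l) := by
        field_simp
      rw [a6, a7, heR] at a5
      have a8 : (k : ℝ) * (∑ v ∈ Bᶜ, dg G B v + (k : ℝ) * ((k : ℝ) - 1) / 2 + (e : ℝ) -
          (k : ℝ) * ((k : ℝ) - 1) / 2) = (k : ℝ) * ∑ v ∈ Bᶜ, dg G B v + (k : ℝ) * e := by ring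
      rw [a8] at a5
      linarith
    have h2 : ((k * e + ∑ v ∈ Bᶜ, q v * (k - q v) : ℕ) : ℝ) <
        ((l * (k - l) + 1 : ℕ) : ℝ) := by
      have : ((l * (k - l) + 1 : ℕ) : ℝ) = ((l * (k - l) : ℕ) : ℝ) + 1 := by norm_num
      rw [this]; linarith
    have h3 : k * e + ∑ v ∈ Bᶜ, q v * (k - q v) < l * (k - l) + 1 := by exact_mod_cast h2
    omega
  have hmod' : (∑ v ∈ Bᶜ, q v + e) % k = l := by
    have h1 : ∑ v ∈ Bᶜ, q v + e = k * t + l := by omega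
    rw [h1, Nat.mul_add_mod, Nat.mod_eq_of_lt hlk]
  obtain ⟨he0, w, hw, hwl, hrest⟩ := arith_unique Bᶜ q hl1 hlk (fun v _ => hqk v) hmod' hineq
  -- independence of the complement
  have hind : ∀ v, v ∉ B → ∀ v', v' ∉ B → ¬ G.Adj v v' := by
    intro v hv v' hv' hadj
    rw [he0] at hE2e
    have h1 : 1 ≤ dg G Bᶜ v := by
      have : ad G v v' ≤ dg G Bᶜ v :=
        Finset.single_le_sum (f := fun w => ad G v w) (fun w _ => ad_nonneg G _ _)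
          (Finset.mem_compl.2 hv')
      rwa [ad_of_adj G hadj] at this
    have h2 : dg G Bᶜ v ≤ ∑ v ∈ Bᶜ, dg G Bᶜ v :=
      Finset.single_le_sum (f := fun v => dg G Bᶜ v) (fun v _ => dg_nonneg G _ _)
        (Finset.mem_compl.2 hv)
    rw [hE2e] at h2
    norm_num at h2
    linarith
  refine ⟨B, w, Finset.mem_compl.1 hw, hcard, ?_, hind, hwl, ?_⟩
  · -- clique
    intro b hb b' hb' hne
    have h1 : B.filter (G.Adj b) ⊆ B.erase b := by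
      intro c hc
      rw [Finset.mem_filter] at hc
      exact Finset.mem_erase.2 ⟨hc.2.ne', hc.1⟩
    have h2 : B.filter (G.Adj b) = B.erase b := by
      apply Finset.eq_of_subset_of_card_le h1
      rw [hB2 b hb, Finset.card_erase_of_mem hb, hcard]
    have h3 : b' ∈ B.filter (G.Adj b) := by
      rw [h2]; exact Finset.mem_erase.2 ⟨hne.symm, hb'⟩
    exact (Finset.mem_filter.1 h3).2
  · intro v hv hvw b hb
    have h1 := hrest v (Finset.mem_compl.2 hv) hvw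
    rcases h1 with h1 | h1
    · exfalso
      obtain ⟨c, hc⟩ := hiso v
      have hcB : c ∈ B := by
        by_contra hcB
        exact hind v hv c hcB hc
      have : c ∈ B.filter (G.Adj v) := Finset.mem_filter.2 ⟨hcB, hc⟩
      rw [Finset.card_eq_zero.1 h1] at this
      simp at this
    · have h2 : B.filter (G.Adj v) = B := by
        apply Finset.eq_of_subset_of_card_le (Finset.filter_subset _ _)
        rw [hcard]; exact h1.ge
      have h3 : b ∈ B.filter (G.Adj v) := by rw [h2]; exact hb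
      exact (Finset.mem_filter.1 h3).2

end Pool.Agent.F3
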